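import Pool.Agent.R239.Newt.Cross

/-!
# Newton maps in terms of root families; the basin near a root
-/

set_option autoImplicit false

namespace Pool.Agent.R239.Newt

open Filter Topology Metric Set

variable {ι : Type} [Fintype ι]

/-- logarithmic derivative -/
noncomputable def S (b : ι → ℂ) (z : ℂ) : ℂ := ∑ j, (z - b j)⁻¹

open Classical in
/-- the Newton map, fixing the roots -/
noncomputable def Nw (b : ι → ℂ) (z : ℂ) : ℂ := if ∃ j, z = b j then z else z - (S b z)⁻¹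

/-- convergence of the Newton iterates, all of them being defined -/
def Conv (b : ι → ℂ) (a z : ℂ) : Prop :=
  (∀ n : ℕ, (∃ j, (Nw b)^[n] z = b j) ∨ S b ((Nw b)^[n] z) ≠ 0) ∧
    Tendsto (fun n => (Nw b)^[n] z) atTop (𝓝 a)

lemma Nw_root {b : ι → ℂ} {z : ℂ} (h : ∃ j, z = b j) : Nw b z = z := by
  unfold Nw
  rw [if_pos h]

lemma Nw_of_ne {b : ι → ℂ} {z : ℂ} (h : ∀ j, z ≠ b j) : Nw b z = z - (S b z)⁻¹ := by
  unfold Nw
  rw [if_neg (by push Not; exact h)]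

lemma conv_step {b : ι → ℂ} {a z : ℂ} (h1 : S b z ≠ 0) (h2 : Conv b a (Nw b z)) :
    Conv b a z := by
  obtain ⟨h3, h4⟩ := h2
  refine ⟨fun n => ?_, ?_⟩
  · cases n with
    | zero => exact Or.inr h1
    | succ n =>
      rw [Function.iterate_succ_apply]
      exact h3 n
  · rw [← tendsto_add_atTop_iff_nat 1]
    simp_rw [Function.iterate_succ_apply]
    exact h4

section near

open Classical in
/-- the indices of the nonzero roots -/
noncomputable def J1 (b : ι → ℂ) : Finset ι := Finset.univ.filter fun j => b j ≠ 0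

open Classical in
/-- the indices of the zero roots -/
noncomputable def J0 (b : ι → ℂ) : Finset ι := Finset.univ.filter fun j => b j = 0

/-- the part of the logarithmic derivative from the nonzero roots -/
noncomputable def S1 (b : ι → ℂ) (z : ℂ) : ℂ := ∑ j ∈ J1 b, (z - b j)⁻¹

lemma mem_J1 {b : ι → ℂ} {j : ι} : j ∈ J1 b ↔ b j ≠ 0 := by
  classical
  unfold J1
  simp

lemma mem_J0 {b : ι → ℂ} {j : ι} : j ∈ J0 b ↔ b j = 0 := by
  classical
  unfold J0
  simp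

lemma S_split (b : ι → ℂ) (z : ℂ) : S b z = (J0 b).card * z⁻¹ + S1 b z := by
  classical
  unfold S S1 J1
  rw [← Finset.sum_filter_add_sum_filter_not Finset.univ (fun j => b j = 0)]
  congr 1
  have : ∑ j ∈ Finset.univ.filter (fun j => b j = 0), (z - b j)⁻¹ =
      ∑ j ∈ Finset.univ.filter (fun j => b j = 0), z⁻¹ := by
    apply Finset.sum_congr rfl
    intro j hj
    rw [Finset.mem_filter] at hj
    rw [hj.2, sub_zero]
  rw [this, Finset.sum_const, nsmul_eq_mul]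
  congr 2

lemma inv_re (z : ℂ) : (z⁻¹).re = z.re / ‖z‖ ^ 2 := by
  rw [Complex.inv_re, Complex.normSq_eq_norm_sq]

variable {b : ι → ℂ} (hre : ∀ j, (b j).re ≤ 0) (hJ0 : ∃ j, b j = 0) (h1 : ‖S1 b 1‖ = 1 / 100)

include hre

omit [Fintype ι] in
lemma one_sub_ne (j : ι) : (1 : ℂ) - b j ≠ 0 := by
  intro h
  have : ((1 : ℂ) - b j).re = 0 := by rw [h]; rfl
  rw [Complex.sub_re, Complex.one_re] at this
  have := hre j
  linarith

include h1

lemma sum_sq_le : ∑ j ∈ J1 b, (‖(1 : ℂ) - b j‖ ^ 2)⁻¹ ≤ 1 / 100 := by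
  have h2 : ∑ j ∈ J1 b, (‖(1 : ℂ) - b j‖ ^ 2)⁻¹ ≤ (S1 b 1).re := by
    unfold S1
    rw [Complex.re_sum]
    apply Finset.sum_le_sum
    intro j _
    rw [inv_re, Complex.sub_re, Complex.one_re, inv_eq_one_div]
    have := hre j
    gcongr
    linarith
  exact h2.trans ((Complex.re_le_norm _).trans h1.le)

lemma ten_le {j : ι} (hj : j ∈ J1 b) : 10 ≤ ‖(1 : ℂ) - b j‖ := by
  have h2 := Finset.single_le_sum (f := fun j => (‖(1 : ℂ) - b j‖ ^ 2)⁻¹)
    (fun i _ => by positivity) hj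
  have h3 := h2.trans (sum_sq_le hre h1)
  have h4 : 0 < ‖(1 : ℂ) - b j‖ := norm_pos_iff.2 (one_sub_ne hre j)
  rw [inv_le_comm₀ (by positivity) (by norm_num)] at h3
  norm_num at h3
  nlinarith

lemma lower_dist {z : ℂ} (hz : ‖z‖ ≤ 1) {j : ι} (hj : j ∈ J1 b) :
    4 / 5 * ‖(1 : ℂ) - b j‖ ≤ ‖z - b j‖ := by
  have h2 := ten_le hre h1 hj
  have h3 : ‖(1 : ℂ) - b j‖ ≤ ‖(1 : ℂ) - z‖ + ‖z - b j‖ := by
    have := norm_add_le ((1 : ℂ) - z) (z - b j)
    rwa [sub_add_sub_cancel] at this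
  have h4 : ‖(1 : ℂ) - z‖ ≤ 2 := by
    refine (norm_sub_le _ _).trans ?_
    rw [norm_one]
    linarith
  linarith

lemma S1_le {z : ℂ} (hz : ‖z‖ ≤ 1) : ‖S1 b z‖ ≤ 0.035 := by
  have h2 : S1 b z - S1 b 1 = ∑ j ∈ J1 b, (1 - z) * ((z - b j)⁻¹ * (1 - b j)⁻¹) := by
    unfold S1
    rw [← Finset.sum_sub_distrib]
    apply Finset.sum_congr rfl
    intro j hj
    have e1 := one_sub_ne hre j
    have e2 : z - b j ≠ 0 := by
      have := lower_dist hre h1 hz hj
      have h3 := ten_le hre h1 hj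
      exact norm_pos_iff.1 (by linarith)
    field_simp
    ring
  have h3 : ‖S1 b z - S1 b 1‖ ≤ 0.025 := by
    rw [h2]
    calc ‖∑ j ∈ J1 b, (1 - z) * ((z - b j)⁻¹ * (1 - b j)⁻¹)‖
        ≤ ∑ j ∈ J1 b, ‖(1 - z) * ((z - b j)⁻¹ * (1 - b j)⁻¹)‖ := norm_sum_le _ _
      _ ≤ ∑ j ∈ J1 b, 2 * (5 / 4 * (‖(1 : ℂ) - b j‖ ^ 2)⁻¹) := by
          apply Finset.sum_le_sum
          intro j hj
          rw [norm_mul, norm_mul, norm_inv, norm_inv]
          have h4 : ‖(1 : ℂ) - z‖ ≤ 2 := by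
            refine (norm_sub_le _ _).trans ?_
            rw [norm_one]
            linarith
          have h5 := lower_dist hre h1 hz hj
          have h6 := ten_le hre h1 hj
          have h7 : ‖z - b j‖⁻¹ ≤ 5 / 4 * ‖(1 : ℂ) - b j‖⁻¹ := by
            have : 5 / 4 * ‖(1 : ℂ) - b j‖⁻¹ = (4 / 5 * ‖(1 : ℂ) - b j‖)⁻¹ := by
              rw [mul_inv]; norm_num
            rw [this]
            apply inv_anti₀ _ h5
            linarith
          calc ‖(1 : ℂ) - z‖ * (‖z - b j‖⁻¹ * ‖(1 : ℂ) - b j‖⁻¹)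
              ≤ 2 * ((5 / 4 * ‖(1 : ℂ) - b j‖⁻¹) * ‖(1 : ℂ) - b j‖⁻¹) := by gcongr
            _ = _ := by rw [pow_two, mul_inv]; ring
      _ = 5 / 2 * ∑ j ∈ J1 b, (‖(1 : ℂ) - b j‖ ^ 2)⁻¹ := by
          rw [Finset.mul_sum]
          apply Finset.sum_congr rfl
          intro j _
          ring
      _ ≤ 5 / 2 * (1 / 100) := by
          have := sum_sq_le hre h1
          linarith
      _ = 0.025 := by norm_num
  calc ‖S1 b z‖ = ‖(S1 b z - S1 b 1) + S1 b 1‖ := by rw [sub_add_cancel]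
    _ ≤ ‖S1 b z - S1 b 1‖ + ‖S1 b 1‖ := norm_add_le _ _
    _ ≤ 0.035 := by rw [h1]; linarith

lemma not_root {z : ℂ} (hz : ‖z‖ ≤ 1) (hz0 : z ≠ 0) (j : ι) : z ≠ b j := by
  intro h
  by_cases hj : b j = 0
  · exact hz0 (h.trans hj)
  · have h2 := lower_dist hre h1 hz (mem_J1.2 hj)
    have h3 := ten_le hre h1 (mem_J1.2 hj)
    rw [h, sub_self, norm_zero] at h2
    linarith

include hJ0

omit hre h1 in
lemma card_pos : 1 ≤ (J0 b).card := by
  obtain ⟨j, hj⟩ := hJ0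
  exact Finset.card_pos.2 ⟨j, mem_J0.2 hj⟩

/-- the Newton map near zero -/
lemma near_formula {z : ℂ} (hz : ‖z‖ ≤ 1) (hz0 : z ≠ 0) :
    S b z ≠ 0 ∧ ((J0 b).card : ℂ) + z * S1 b z ≠ 0 ∧
      z - (S b z)⁻¹ = z * ((((J0 b).card : ℂ) - 1 + z * S1 b z) / (((J0 b).card : ℂ) + z * S1 b z)) := by
  have hk := card_pos hJ0
  have hk' : (1 : ℝ) ≤ (J0 b).card := by exact_mod_cast hk
  have hm : ‖z * S1 b z‖ ≤ 0.035 := by
    rw [norm_mul]
    have := S1_le hre h1 hz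
    nlinarith [norm_nonneg z, norm_nonneg (S1 b z)]
  have hne : ((J0 b).card : ℂ) + z * S1 b z ≠ 0 := by
    intro h
    have h2 : z * S1 b z = -((J0 b).card : ℂ) := by linear_combination h
    rw [h2, norm_neg, Complex.norm_natCast] at hm
    linarith
  have hS : S b z = (((J0 b).card : ℂ) + z * S1 b z) / z := by
    rw [S_split]
    field_simp
  refine ⟨?_, hne, ?_⟩
  · rw [hS]
    exact div_ne_zero hne hz0
  · rw [hS, inv_div]
    field_simp
    ring

lemma near_le {z : ℂ} (hz : ‖z‖ ≤ 1) :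
    ‖Nw b z‖ ≤ (((J0 b).card : ℝ) - 0.965) / ((J0 b).card - 0.035) * ‖z‖ := by
  have hk := card_pos hJ0
  have hk' : (1 : ℝ) ≤ (J0 b).card := by exact_mod_cast hk
  by_cases hz0 : z = 0
  · rw [hz0, Nw_root (by obtain ⟨j, hj⟩ := hJ0; exact ⟨j, hj.symm⟩), norm_zero, mul_zero]
  rw [Nw_of_ne (not_root hre h1 hz hz0), (near_formula hre hJ0 h1 hz hz0).2.2, norm_mul, norm_div,
    mul_comm]
  have hm : ‖z * S1 b z‖ ≤ 0.035 := by
    rw [norm_mul]
    have := S1_le hre h1 hz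
    nlinarith [norm_nonneg z, norm_nonneg (S1 b z)]
  have e1 : ‖((J0 b).card : ℂ) - 1 + z * S1 b z‖ ≤ (J0 b).card - 0.965 := by
    refine (norm_add_le _ _).trans ?_
    have : ‖((J0 b).card : ℂ) - 1‖ = (J0 b).card - 1 := by
      rw [show ((J0 b).card : ℂ) - 1 = ((((J0 b).card : ℝ) - 1 : ℝ) : ℂ) by push_cast; rfl,
        Complex.norm_real, Real.norm_eq_abs, abs_of_nonneg (by linarith)]
    rw [this]
    linarith
  have e2 : (J0 b).card - 0.035 ≤ ‖((J0 b).card : ℂ) + z * S1 b z‖ := by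
    have := norm_sub_norm_le ((J0 b).card : ℂ) (-(z * S1 b z))
    rw [norm_neg, sub_neg_eq_add, Complex.norm_natCast] at this
    linarith
  have e3 : (0 : ℝ) < (J0 b).card - 0.035 := by linarith
  have e4 : (0 : ℝ) ≤ (J0 b).card - 0.965 := by linarith
  gcongr

lemma near_iter {z : ℂ} (hz : ‖z‖ ≤ 1) (n : ℕ) :
    ‖(Nw b)^[n] z‖ ≤ ((((J0 b).card : ℝ) - 0.965) / ((J0 b).card - 0.035)) ^ n * ‖z‖ := by
  have hk := card_pos hJ0
  have hk' : (1 : ℝ) ≤ (J0 b).card := by exact_mod_cast hk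
  have e3 : (0 : ℝ) < (J0 b).card - 0.035 := by linarith
  set l : ℝ := (((J0 b).card : ℝ) - 0.965) / ((J0 b).card - 0.035) with hl
  have hl0 : 0 ≤ l := div_nonneg (by linarith) e3.le
  have hl1 : l ≤ 1 := by
    rw [hl, div_le_one e3]
    linarith
  induction n with
  | zero => simp
  | succ n ih =>
    rw [Function.iterate_succ_apply']
    have h2 : ‖(Nw b)^[n] z‖ ≤ 1 := by
      refine ih.trans ?_
      have : l ^ n ≤ 1 := pow_le_one₀ hl0 hl1
      have h3 : 0 ≤ l ^ n := by positivity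
      nlinarith [norm_nonneg z]
    have h3 := near_le hre hJ0 h1 h2
    rw [← hl] at h3
    calc ‖Nw b ((Nw b)^[n] z)‖ ≤ l * ‖(Nw b)^[n] z‖ := h3
      _ ≤ l * (l ^ n * ‖z‖) := by gcongr
      _ = l ^ (n + 1) * ‖z‖ := by ring

lemma near_conv {z : ℂ} (hz : ‖z‖ ≤ 1) : Conv b 0 z := by
  have hk := card_pos hJ0
  have hk' : (1 : ℝ) ≤ (J0 b).card := by exact_mod_cast hk
  have e3 : (0 : ℝ) < (J0 b).card - 0.035 := by linarith
  have hit := near_iter hre hJ0 h1 hz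
  set l : ℝ := (((J0 b).card : ℝ) - 0.965) / ((J0 b).card - 0.035) with hl
  have hl0 : 0 ≤ l := div_nonneg (by linarith) e3.le
  have hl1 : l < 1 := by
    rw [hl, div_lt_one e3]
    linarith
  refine ⟨fun n => ?_, ?_⟩
  · have h2 : ‖(Nw b)^[n] z‖ ≤ 1 := by
      refine (hit n).trans ?_
      have : l ^ n ≤ 1 := pow_le_one₀ hl0 hl1.le
      have h3 : 0 ≤ l ^ n := by positivity
      nlinarith [norm_nonneg z]
    by_cases h0 : (Nw b)^[n] z = 0
    · left
      obtain ⟨j, hj⟩ := hJ0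
      exact ⟨j, h0.trans hj.symm⟩
    · right
      exact (near_formula hre hJ0 h1 h2 h0).1
  · rw [tendsto_zero_iff_norm_tendsto_zero]
    have h3 : Tendsto (fun n : ℕ => l ^ n * ‖z‖) atTop (𝓝 (0 * ‖z‖)) :=
      (tendsto_pow_atTop_nhds_zero_of_lt_one hl0 hl1).mul_const _
    rw [zero_mul] at h3
    exact squeeze_zero (fun _ => norm_nonneg _) hit h3

end near

end Pool.Agent.R239.Newt
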