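import Pool.Agent.R239.Newt.Base

/-!
# The core theorem in normalized coordinates
-/

set_option autoImplicit false

namespace Pool.Agent.R239.Newt

open Filter Topology Metric Set

variable {ι : Type} [Fintype ι] {b : ι → ℂ}

lemma sub_mem_HP {z w : ℂ} (hz : z ∈ HP) (hw : w.re ≤ 0) : z - w ∈ HP := by
  rw [mem_HP] at *
  rw [Complex.sub_re]
  linarith

lemma inv_mem_HP {z : ℂ} (hz : z ∈ HP) : z⁻¹ ∈ HP := by
  have h0 := HP_ne_zero hz
  rw [mem_HP] at *
  rw [inv_re]
  have := norm_pos_iff.2 h0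
  positivity

omit [Fintype ι] in
lemma sum_mem_HP {s : Finset ι} (hs : s.Nonempty) {F : ι → ℂ} (h : ∀ j ∈ s, F j ∈ HP) :
    ∑ j ∈ s, F j ∈ HP := by
  rw [mem_HP, Complex.re_sum]
  exact Finset.sum_pos (fun j hj => h j hj) hs

lemma S_mem_HP (hre : ∀ j, (b j).re ≤ 0) (hne : (Finset.univ : Finset ι).Nonempty) {z : ℂ}
    (hz : z ∈ HP) : S b z ∈ HP :=
  sum_mem_HP hne fun j _ => inv_mem_HP (sub_mem_HP hz (hre j))

lemma S1_mem_HP (hre : ∀ j, (b j).re ≤ 0) (hne : (J1 b).Nonempty) {z : ℂ}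
    (hz : z ∈ HP) : S1 b z ∈ HP :=
  sum_mem_HP hne fun j _ => inv_mem_HP (sub_mem_HP hz (hre j))

omit [Fintype ι] in
lemma sum_diff (hre : ∀ j, (b j).re ≤ 0) (s : Finset ι) :
    DifferentiableOn ℂ (fun z => ∑ j ∈ s, (z - b j)⁻¹) HP := by
  apply DifferentiableOn.fun_sum
  intro j _
  apply DifferentiableOn.inv
  · fun_prop
  · intro z hz
    exact HP_ne_zero (sub_mem_HP hz (hre j))

omit [Fintype ι] in
lemma not_root_HP (hre : ∀ j, (b j).re ≤ 0) {z : ℂ} (hz : z ∈ HP) (j : ι) : z ≠ b j := by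
  rintro rfl
  rw [mem_HP] at hz
  have := hre j
  linarith

/-- growth control -/
lemma growth (hre : ∀ j, (b j).re ≤ 0) (hcard : 2 ≤ Fintype.card ι) {w : ℂ} (hw : w ∈ HP) :
    ∃ R : ℝ, ‖w‖ ≤ R ∧ ∀ z : ℂ, w.re ≤ z.re → ‖z‖ ≤ R → ‖w + (S b z)⁻¹‖ ≤ R := by
  have hne : (Finset.univ : Finset ι).Nonempty := by
    rw [Finset.univ_nonempty_iff]
    exact Fintype.card_pos_iff.1 (by omega)
  have hw' := hw
  rw [mem_HP] at hw'
  obtain ⟨B, hB0, hB⟩ : ∃ B : ℝ, 0 < B ∧ ∀ j, ‖b j‖ ≤ B := by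
    refine ⟨∑ j, ‖b j‖ + 1, ?_, fun j => ?_⟩
    · have : 0 ≤ ∑ j, ‖b j‖ := Finset.sum_nonneg fun j _ => norm_nonneg _
      linarith
    · have := Finset.single_le_sum (f := fun j => ‖b j‖) (fun i _ => norm_nonneg _)
        (Finset.mem_univ j)
      linarith
  have hcard' : (2 : ℝ) ≤ Fintype.card ι := by exact_mod_cast hcard
  refine ⟨max (4 * ‖w‖) (‖w‖ + 25 * B ^ 2 / w.re), ?_, fun z hz1 hz2 => ?_⟩
  · refine le_trans ?_ (le_max_left _ _)
    have := norm_nonneg w
    linarith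
  have hzH : z ∈ HP := by rw [mem_HP]; linarith
  have hzw : ∀ j, z - b j ∈ HP := fun j => sub_mem_HP hzH (hre j)
  rcases le_total (4 * B) ‖z‖ with h4 | h4
  · -- far away
    have h5 : z * S b z - Fintype.card ι = ∑ j, b j * (z - b j)⁻¹ := by
      unfold S
      rw [Finset.mul_sum]
      have : (Fintype.card ι : ℂ) = ∑ _j : ι, 1 := by simp
      rw [this, ← Finset.sum_sub_distrib]
      apply Finset.sum_congr rfl
      intro j _
      have := HP_ne_zero (hzw j)
      field_simp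
      ring
    have h6 : ‖z * S b z - Fintype.card ι‖ ≤ Fintype.card ι * (1 / 3) := by
      rw [h5]
      refine (norm_sum_le _ _).trans ?_
      have : ∀ j ∈ Finset.univ, ‖b j * (z - b j)⁻¹‖ ≤ 1 / 3 := by
        intro j _
        rw [norm_mul, norm_inv, ← div_eq_mul_inv]
        have e1 : ‖z‖ - ‖b j‖ ≤ ‖z - b j‖ := norm_sub_norm_le _ _
        have e2 := hB j
        rw [div_le_iff₀ (by linarith)]
        linarith
      refine (Finset.sum_le_card_nsmul _ _ _ this).trans ?_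
      rw [nsmul_eq_mul, Finset.card_univ]
    have h7 : (4 : ℝ) / 3 ≤ ‖z‖ * ‖S b z‖ := by
      rw [← norm_mul]
      have e1 := norm_sub_norm_le (Fintype.card ι : ℂ) ((Fintype.card ι : ℂ) - z * S b z)
      rw [sub_sub_cancel, Complex.norm_natCast, norm_sub_rev] at e1
      linarith
    have hS0 : 0 < ‖S b z‖ := norm_pos_iff.2 (HP_ne_zero (S_mem_HP hre hne hzH))
    have h8 : ‖(S b z)⁻¹‖ ≤ 3 / 4 * ‖z‖ := by
      rw [norm_inv, inv_eq_one_div, div_le_iff₀ hS0]
      linarith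
    have h9 : 4 * ‖w‖ ≤ max (4 * ‖w‖) (‖w‖ + 25 * B ^ 2 / w.re) := le_max_left _ _
    refine (norm_add_le _ _).trans ?_
    linarith
  · -- close
    obtain ⟨j0, -⟩ := hne
    have h5 : w.re / (25 * B ^ 2) ≤ (S b z).re := by
      unfold S
      rw [Complex.re_sum]
      have h6 := Finset.single_le_sum (f := fun j => ((z - b j)⁻¹).re)
        (fun i _ => le_of_lt (inv_mem_HP (hzw i))) (Finset.mem_univ j0)
      refine le_trans ?_ h6
      rw [inv_re]
      have e0 : 0 < ‖z - b j0‖ := norm_pos_iff.2 (HP_ne_zero (hzw j0))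
      have e1 : ‖z - b j0‖ ≤ 5 * B := by
        refine (norm_sub_le _ _).trans ?_
        have := hB j0
        linarith
      have e2 : w.re ≤ (z - b j0).re := by
        rw [Complex.sub_re]
        have := hre j0
        linarith
      have e3 : ‖z - b j0‖ ^ 2 ≤ 25 * B ^ 2 := by nlinarith
      have e4 : 0 ≤ (z - b j0).re := by linarith
      gcongr
    have h6 : ‖(S b z)⁻¹‖ ≤ 25 * B ^ 2 / w.re := by
      have e1 : w.re / (25 * B ^ 2) ≤ ‖S b z‖ := h5.trans (Complex.re_le_norm _)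
      have e2 : 0 < w.re / (25 * B ^ 2) := by positivity
      rw [norm_inv, ← inv_div]
      exact inv_anti₀ e2 e1
    refine (norm_add_le _ _).trans ?_
    refine le_trans ?_ (le_max_right _ _)
    linarith

/-- the inverse branch for Newton maps -/
lemma exists_invBr (hre : ∀ j, (b j).re ≤ 0) (hcard : 2 ≤ Fintype.card ι) :
    ∃ g : ℂ → ℂ, InvBr (fun z => (S b z)⁻¹) g := by
  have hne : (Finset.univ : Finset ι).Nonempty := by
    rw [Finset.univ_nonempty_iff]
    exact Fintype.card_pos_iff.1 (by omega)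
  have hd : DifferentiableOn ℂ (fun z => (S b z)⁻¹) HP := by
    apply DifferentiableOn.inv
    · exact sum_diff hre Finset.univ
    · intro z hz
      exact HP_ne_zero (S_mem_HP hre hne hz)
  have hm : MapsTo (fun z => (S b z)⁻¹) HP HP := fun z hz => inv_mem_HP (S_mem_HP hre hne hz)
  obtain ⟨g, h1, h2, h3, h4, h5⟩ := exists_inv hd hm fun w hw => growth hre hcard hw
  exact ⟨g, hd, hm, h1, h2, h3, h4, h5⟩

/-- the constant -/
noncomputable def c1 : ℝ := 7 / 100000

lemma re_inv_lower {m : ℂ} (hm : ‖m‖ ≤ 0.035) : 0.9 ≤ ((1 + m)⁻¹).re := by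
  have h1 := (abs_le.1 (Complex.abs_re_le_norm m)).1
  have h2 : ‖1 + m‖ ≤ 1.035 := by
    refine (norm_add_le _ _).trans ?_
    rw [norm_one]
    linarith
  have h3 : 0.965 ≤ ‖1 + m‖ := by
    have := norm_sub_norm_le (1 : ℂ) (-m)
    rw [norm_neg, norm_one, sub_neg_eq_add] at this
    linarith
  rw [inv_re, Complex.add_re, Complex.one_re, le_div_iff₀ (by positivity)]
  nlinarith

/-- the base point -/
lemma exists_z0 (hre : ∀ j, (b j).re ≤ 0) (hJ0 : ∃ j, b j = 0) (h1 : ‖S1 b 1‖ = 1 / 100) :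
    ∃ z0 ∈ HP, ‖z0‖ = 1 / 4 ∧ c1 ≤ (z0 - (S b z0)⁻¹).re := by
  have hJ1 : (J1 b).Nonempty := by
    rw [Finset.nonempty_iff_ne_empty]
    intro h
    unfold S1 at h1
    rw [h, Finset.sum_empty, norm_zero] at h1
    norm_num at h1
  have hk := card_pos hJ0
  rcases Nat.lt_or_ge 1 (J0 b).card with hk2 | hk1
  · -- multiplicity at least two
    have hk' : (2 : ℝ) ≤ (J0 b).card := by exact_mod_cast hk2
    refine ⟨1 / 4, by rw [mem_HP]; norm_num, by norm_num, ?_⟩
    have hz : ‖(1 / 4 : ℂ)‖ ≤ 1 := by norm_num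
    obtain ⟨-, e2, e3⟩ := near_formula hre hJ0 h1 hz (by norm_num)
    rw [e3]
    set m : ℂ := (1 / 4 : ℂ) * S1 b (1 / 4) with hm
    have hmn : ‖m‖ ≤ 0.035 := by
      rw [hm, norm_mul]
      have := S1_le hre h1 hz
      have e : ‖(1 / 4 : ℂ)‖ = 1 / 4 := by norm_num
      rw [e]
      linarith [norm_nonneg (S1 b (1 / 4))]
    have e4 : (1 / 4 : ℂ) * ((((J0 b).card : ℂ) - 1 + m) / (((J0 b).card : ℂ) + m)) =
        ((1 / 4 : ℝ) : ℂ) * (1 - (((J0 b).card : ℂ) + m)⁻¹) := by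
      push_cast
      field_simp
      ring
    rw [e4, Complex.re_ofReal_mul, Complex.sub_re, Complex.one_re]
    have e5 : 1.965 ≤ ‖((J0 b).card : ℂ) + m‖ := by
      have := norm_sub_norm_le ((J0 b).card : ℂ) (-m)
      rw [norm_neg, sub_neg_eq_add, Complex.norm_natCast] at this
      linarith
    have e6 : ((((J0 b).card : ℂ) + m)⁻¹).re ≤ 0.51 := by
      refine (Complex.re_le_norm _).trans ?_
      rw [norm_inv, inv_le_comm₀ (by linarith) (by norm_num)]
      refine le_trans ?_ e5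
      norm_num
    rw [c1]
    linarith
  · -- simple root
    have hk1' : (J0 b).card = 1 := le_antisymm hk1 hk
    have hpi := Real.pi_pos
    set z : ℝ → ℂ := fun θ => (1 / 4 : ℝ) * Complex.exp (θ * Complex.I) with hz
    have hzn : ∀ θ, ‖z θ‖ = 1 / 4 := by
      intro θ
      rw [hz]
      simp only
      rw [norm_mul, Complex.norm_exp_ofReal_mul_I, Complex.norm_real]
      norm_num
    have hzre : ∀ θ, (z θ).re = 1 / 4 * Real.cos θ := by
      intro θ
      rw [hz]
      simp only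
      rw [Complex.re_ofReal_mul, Complex.exp_ofReal_mul_I_re]
    have hcos : ∀ θ ∈ Icc (-(Real.pi / 4)) (Real.pi / 4), 0.7 ≤ Real.cos θ := by
      intro θ hθ
      have h2 : Real.cos (Real.pi / 4) ≤ Real.cos θ := by
        rw [← Real.cos_abs θ]
        apply Real.cos_le_cos_of_nonneg_of_le_pi (abs_nonneg _) (by linarith)
        rw [abs_le]
        exact hθ
      have h3 : (0.7 : ℝ) ≤ Real.cos (Real.pi / 4) := by
        rw [Real.cos_pi_div_four]
        have : (1.4 : ℝ) ≤ Real.sqrt 2 := by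
          apply Real.le_sqrt_of_sq_le
          norm_num
        linarith
      exact h3.trans h2
    have hzH : ∀ θ ∈ Icc (-(Real.pi / 4)) (Real.pi / 4), z θ ∈ HP := by
      intro θ hθ
      rw [mem_HP, hzre]
      have := hcos θ hθ
      linarith
    have hz2 : ∀ θ, z θ ^ 2 = (1 / 16 : ℝ) * Complex.exp (((2 * θ : ℝ) : ℂ) * Complex.I) := by
      intro θ
      rw [hz]
      simp only
      rw [mul_pow, ← Complex.exp_nat_mul]
      congr 1
      · push_cast; norm_num
      · congr 1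
        push_cast
        ring
    have hzc : Continuous z := by
      rw [hz]
      fun_prop
    have hcont : ContinuousOn (fun θ => (z θ ^ 2 * S1 b (z θ)).im)
        (Icc (-(Real.pi / 4)) (Real.pi / 4)) := by
      apply Complex.continuous_im.comp_continuousOn
      apply ContinuousOn.mul
      · exact (hzc.pow 2).continuousOn
      · exact (sum_diff hre (J1 b)).continuousOn.comp hzc.continuousOn hzH
    have hmem1 : -(Real.pi / 4) ∈ Icc (-(Real.pi / 4)) (Real.pi / 4) := ⟨le_rfl, by linarith⟩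
    have hmem2 : (Real.pi / 4) ∈ Icc (-(Real.pi / 4)) (Real.pi / 4) := ⟨by linarith, le_rfl⟩
    have hleft : (z (-(Real.pi / 4)) ^ 2 * S1 b (z (-(Real.pi / 4)))).im ≤ 0 := by
      have e1 : z (-(Real.pi / 4)) ^ 2 = (1 / 16 : ℝ) * (-Complex.I) := by
        rw [hz2]
        congr 1
        rw [show (((2 * -(Real.pi / 4) : ℝ) : ℂ) * Complex.I) = -(Real.pi / 2 * Complex.I) by
          push_cast; ring, Complex.exp_neg, Complex.exp_pi_div_two_mul_I, Complex.inv_I]
      have e2 := S1_mem_HP hre hJ1 (hzH _ hmem1)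
      rw [mem_HP] at e2
      rw [e1, mul_assoc, Complex.im_ofReal_mul]
      have e3 : (-Complex.I * S1 b (z (-(Real.pi / 4)))).im = -(S1 b (z (-(Real.pi / 4)))).re := by
        simp
      rw [e3]
      linarith
    have hright : 0 ≤ (z (Real.pi / 4) ^ 2 * S1 b (z (Real.pi / 4))).im := by
      have e1 : z (Real.pi / 4) ^ 2 = (1 / 16 : ℝ) * (Complex.I) := by
        rw [hz2]
        congr 1
        rw [show (((2 * (Real.pi / 4) : ℝ) : ℂ) * Complex.I) = (Real.pi / 2 * Complex.I) by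
          push_cast; ring, Complex.exp_pi_div_two_mul_I]
      have e2 := S1_mem_HP hre hJ1 (hzH _ hmem2)
      rw [mem_HP] at e2
      rw [e1, mul_assoc, Complex.im_ofReal_mul]
      have e3 : (Complex.I * S1 b (z (Real.pi / 4))).im = (S1 b (z (Real.pi / 4))).re := by
        simp
      rw [e3]
      linarith
    obtain ⟨θ, hθ, hθ0⟩ := intermediate_value_Icc (by linarith : -(Real.pi / 4) ≤ Real.pi / 4)
      hcont ⟨hleft, hright⟩
    simp only at hθ0
    have hzθ := hzH θ hθ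
    have hz1 : ‖z θ‖ ≤ 1 := by rw [hzn]; norm_num
    have hz0 : z θ ≠ 0 := HP_ne_zero hzθ
    refine ⟨z θ, hzθ, hzn θ, ?_⟩
    obtain ⟨-, e2, e3⟩ := near_formula hre hJ0 h1 hz1 hz0
    rw [e3]
    rw [hk1'] at e2 ⊢
    -- lower bound of `S1`
    have hd1 : DifferentiableOn ℂ (S1 b) HP := sum_diff hre (J1 b)
    have hm1 : MapsTo (S1 b) HP HP := fun w hw => S1_mem_HP hre hJ1 hw
    have hone : (1 : ℂ) ∈ HP := by rw [mem_HP]; norm_num
    have hu : ‖z θ - 1‖ ≤ 0.752 * ‖z θ + starRingEnd ℂ 1‖ := by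
      apply le_of_sq_le_sq _ (by positivity)
      have hid := hp_id (z θ) 1
      rw [Complex.one_re, mul_one] at hid
      have hre0 : 0.7 ≤ 4 * (z θ).re := by
        rw [hzre]
        have := hcos θ hθ
        linarith
      have hup : ‖z θ + starRingEnd ℂ 1‖ ≤ 5 / 4 := by
        refine (norm_add_le _ _).trans ?_
        rw [RCLike.norm_conj, norm_one, hzn]
        norm_num
      have hup2 : ‖z θ + starRingEnd ℂ 1‖ ^ 2 ≤ 25 / 16 := by
        nlinarith [norm_nonneg (z θ + starRingEnd ℂ 1)]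
      rw [mul_pow]
      nlinarith
    have hsp := sp_norm hd1 hm1 hzθ hone hu
    rw [h1] at hsp
    have hS1 : 0.0014 ≤ ‖S1 b (z θ)‖ := by
      have e := norm_sub_norm_le (S1 b 1) (S1 b (z θ))
      rw [norm_sub_rev, h1] at e
      linarith
    -- positivity of the product
    have hm : z θ * S1 b (z θ) = z θ * S1 b (z θ) := rfl
    have hmn : ‖z θ * S1 b (z θ)‖ ≤ 0.035 := by
      rw [norm_mul, hzn]
      have := S1_le hre h1 hz1
      linarith [norm_nonneg (S1 b (z θ))]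
    have hX : 0 ≤ (z θ ^ 2).re := by
      rw [hz2, Complex.re_ofReal_mul, Complex.exp_ofReal_mul_I_re]
      have : 0 ≤ Real.cos (2 * θ) := by
        apply Real.cos_nonneg_of_neg_pi_div_two_le_of_le
        · linarith [hθ.1]
        · linarith [hθ.2]
      positivity
    have hY := S1_mem_HP hre hJ1 hzθ
    rw [mem_HP] at hY
    have hprod : z θ ^ 2 * S1 b (z θ) = ((‖z θ ^ 2 * S1 b (z θ)‖ : ℝ) : ℂ) := by
      have hreal : z θ ^ 2 * S1 b (z θ) = (((z θ ^ 2 * S1 b (z θ)).re : ℝ) : ℂ) := by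
        apply Complex.ext
        · simp
        · rw [Complex.ofReal_im]; exact hθ0
      have hnn : 0 ≤ (z θ ^ 2 * S1 b (z θ)).re := by
        rw [Complex.mul_im] at hθ0
        rw [Complex.mul_re]
        set x1 := (z θ ^ 2).re
        set x2 := (z θ ^ 2).im
        set y1 := (S1 b (z θ)).re
        set y2 := (S1 b (z θ)).im
        have e1 : (x1 * y1 - x2 * y2) * y1 = x1 * (y1 ^ 2 + y2 ^ 2) := by
          have : x2 * y1 = -(x1 * y2) := by linarith
          calc (x1 * y1 - x2 * y2) * y1 = x1 * y1 ^ 2 - (x2 * y1) * y2 := by ring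
            _ = x1 * (y1 ^ 2 + y2 ^ 2) := by rw [this]; ring
        have e2 : 0 ≤ (x1 * y1 - x2 * y2) * y1 := by
          rw [e1]
          positivity
        exact nonneg_of_mul_nonneg_left e2 hY
      rw [hreal, Complex.norm_real, Real.norm_eq_abs, abs_of_nonneg hnn]
    have hfin : z θ * ((((1 : ℕ) : ℂ) - 1 + z θ * S1 b (z θ)) / (((1 : ℕ) : ℂ) + z θ * S1 b (z θ))) =
        ((‖z θ ^ 2 * S1 b (z θ)‖ : ℝ) : ℂ) * (1 + z θ * S1 b (z θ))⁻¹ := by
      rw [← hprod]
      push_cast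
      ring
    rw [hfin, Complex.re_ofReal_mul, norm_mul, norm_pow, hzn, c1]
    have h9 := re_inv_lower hmn
    nlinarith [norm_nonneg (S1 b (z θ))]

/-- the core theorem in normalized coordinates -/
theorem core_scaled : ∃ κ : ℝ, 0 < κ ∧ ∀ (ι : Type) [Fintype ι] (b : ι → ℂ),
    (∀ j, (b j).re ≤ 0) → (∃ j, b j = 0) → ‖S1 b 1‖ = 1 / 100 →
    ∀ (c0 : ℂ) (r : ℝ), ‖c0‖ < r →
      (∃ y, ‖y - c0‖ = r ∧ S b y ≠ 0 ∧ ∀ a, ‖a - y‖ < κ * ‖(S b y)⁻¹‖ → Conv b 0 a) ∨
      (∃ y, ‖y - c0‖ = r ∧ ‖y‖ ≤ 1 / 4 ∧ ∀ a, ‖a - y‖ < 3 / 4 → Conv b 0 a) := by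
  obtain ⟨κ, hκ, hcross⟩ := crossing (c1 := c1) (by rw [c1]; norm_num)
  refine ⟨κ, hκ, ?_⟩
  intro ι _ b hre hJ0 h1 c0 r hr
  have hJ1 : (J1 b).Nonempty := by
    rw [Finset.nonempty_iff_ne_empty]
    intro h
    unfold S1 at h1
    rw [h, Finset.sum_empty, norm_zero] at h1
    norm_num at h1
  have hcard : 2 ≤ Fintype.card ι := by
    obtain ⟨j0, hj0⟩ := hJ0
    obtain ⟨j1, hj1⟩ := hJ1
    rw [mem_J1] at hj1
    have hne : j0 ≠ j1 := by
      rintro rfl
      exact hj1 hj0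
    have := Fintype.one_lt_card_iff.2 ⟨j0, j1, hne⟩
    omega
  have hne : (Finset.univ : Finset ι).Nonempty := by
    rw [Finset.univ_nonempty_iff]
    exact Fintype.card_pos_iff.1 (by omega)
  obtain ⟨z0, hz0, hz0n, hz0c⟩ := exists_z0 hre hJ0 h1
  rcases le_or_gt ‖z0 - c0‖ r with hin | hout
  · left
    obtain ⟨g, hg⟩ := exists_invBr hre hcard
    have hN0 : ‖z0 - (S b z0)⁻¹‖ ≤ 1 / 4 := by
      rw [← Nw_of_ne (not_root_HP hre hz0)]
      have h2 := near_le hre hJ0 h1 (z := z0) (by rw [hz0n]; norm_num)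
      refine h2.trans ?_
      have hk := card_pos hJ0
      have hk' : (1 : ℝ) ≤ (J0 b).card := by exact_mod_cast hk
      have e3 : (0 : ℝ) < (J0 b).card - 0.035 := by linarith
      have : (((J0 b).card : ℝ) - 0.965) / ((J0 b).card - 0.035) ≤ 1 := by
        rw [div_le_one e3]
        linarith
      rw [hz0n]
      linarith
    obtain ⟨n, y, hyH, hyr, hy⟩ := hcross _ g hg z0 hz0 hz0c (by rw [hz0n]) hN0 c0 r hin
    refine ⟨y, hyr, HP_ne_zero (S_mem_HP hre hne hyH), fun a ha => ?_⟩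
    obtain ⟨ζ, hζ, hζa, hζ1⟩ := hy a ha
    have hc : ∀ m : ℕ, Conv b 0 (g^[m] ζ) := by
      intro m
      induction m with
      | zero =>
        apply conv_step
        · exact HP_ne_zero (S_mem_HP hre hne hζ)
        · rw [Function.iterate_zero, id, Nw_of_ne (not_root_HP hre hζ)]
          exact near_conv hre hJ0 h1 hζ1.le
      | succ m ih =>
        have hm := hg.iter_mem (m + 1) hζ
        apply conv_step
        · exact HP_ne_zero (S_mem_HP hre hne hm)
        · rw [Nw_of_ne (not_root_HP hre hm), Function.iterate_succ_apply']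
          have := hg.r _ (hg.iter_mem m hζ)
          rw [this]
          exact ih
    rw [← hζa]
    exact hc n
  · right
    have hcont : ContinuousOn (fun t : ℝ => ‖(t : ℂ) * z0 - c0‖) (Icc 0 1) := by fun_prop
    obtain ⟨t, ht, hty⟩ := intermediate_value_Icc (by norm_num : (0 : ℝ) ≤ 1) hcont
      (show r ∈ Icc _ _ from ⟨by
        simp only [Complex.ofReal_zero, zero_mul, zero_sub, norm_neg]
        exact hr.le, by
        simp only [Complex.ofReal_one, one_mul]
        exact hout.le⟩)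
    simp only at hty
    have hyn : ‖(t : ℂ) * z0‖ ≤ 1 / 4 := by
      rw [norm_mul, Complex.norm_real, Real.norm_eq_abs, abs_of_nonneg ht.1, hz0n]
      linarith [ht.2]
    refine ⟨(t : ℂ) * z0, hty, hyn, fun a ha => ?_⟩
    apply near_conv hre hJ0 h1
    have := norm_add_le (a - (t : ℂ) * z0) ((t : ℂ) * z0)
    rw [sub_add_cancel] at this
    linarith

end Pool.Agent.R239.Newt
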