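import Pool.Agent.R239.Newt.Inv
import Pool.Agent.W746.LD.Koebe

/-!
# A crossing with a large disc of good points
-/

set_option autoImplicit false

namespace Pool.Agent.R239.Newt

open Filter Topology Metric Set

/-- `g` is the inverse branch of `z - f z` on the right half plane -/
structure InvBr (f g : ℂ → ℂ) : Prop where
  fd : DifferentiableOn ℂ f HP
  fm : MapsTo f HP HP
  gd : DifferentiableOn ℂ g HP
  gm : MapsTo g HP HP
  gi : InjOn g HP
  r : ∀ w ∈ HP, g w - f (g w) = w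
  l : ∀ z ∈ HP, z - f z ∈ HP → g (z - f z) = z

lemma InvBr.iter_mem {f g : ℂ → ℂ} (h : InvBr f g) (n : ℕ) {z : ℂ} (hz : z ∈ HP) :
    g^[n] z ∈ HP := by
  induction n with
  | zero => exact hz
  | succ n ih => rw [Function.iterate_succ_apply']; exact h.gm ih

lemma InvBr.iter_diff {f g : ℂ → ℂ} (h : InvBr f g) (n : ℕ) :
    DifferentiableOn ℂ g^[n] HP := by
  induction n with
  | zero => exact differentiableOn_id
  | succ n ih =>
    rw [Function.iterate_succ']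
    exact h.gd.comp ih fun z hz => h.iter_mem n hz

lemma InvBr.iter_inj {f g : ℂ → ℂ} (h : InvBr f g) (n : ℕ) : InjOn g^[n] HP := by
  induction n with
  | zero => exact Function.injective_id.injOn
  | succ n ih =>
    rw [Function.iterate_succ']
    exact h.gi.comp ih fun z hz => h.iter_mem n hz

/-- the orbit leaves every disc -/
lemma InvBr.leaves {f g : ℂ → ℂ} (h : InvBr f g) {z0 : ℂ} (hz0 : z0 ∈ HP) (c0 : ℂ) (r : ℝ) :
    ∃ n : ℕ, r < ‖g^[n] z0 - c0‖ := by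
  by_contra hcon
  push Not at hcon
  set X : Set ℂ := {z | z0.re ≤ z.re} ∩ closedBall c0 r with hX
  have hXc : IsCompact X := (isCompact_closedBall c0 r).inter_left
    (isClosed_le continuous_const Complex.continuous_re)
  have hz0' := hz0
  rw [mem_HP] at hz0'
  have hXH : X ⊆ HP := fun z hz => by
    have : z0.re ≤ z.re := hz.1
    rw [mem_HP]
    linarith
  have h0X : z0 ∈ X := ⟨le_refl z0.re, by
    have := hcon 0
    rw [mem_closedBall, dist_eq_norm]
    exact this⟩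
  have hcont : ContinuousOn (fun z => (f z).re) X :=
    Complex.continuous_re.comp_continuousOn (h.fd.continuousOn.mono hXH)
  obtain ⟨x, hx, hmin⟩ := hXc.exists_isMinOn ⟨z0, h0X⟩ hcont
  have hε : 0 < (f x).re := h.fm (hXH hx)
  have key : ∀ n : ℕ, z0.re + n * (f x).re ≤ (g^[n] z0).re := by
    intro n
    induction n with
    | zero => simp
    | succ n ih =>
      have h1 := h.iter_mem n hz0
      have h2 := h.r _ h1
      rw [← Function.iterate_succ_apply' g] at h2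
      have h3 := h.iter_mem (n + 1) hz0
      have h4 : 0 < (f (g^[n + 1] z0)).re := h.fm h3
      have h5 : (g^[n + 1] z0).re = (g^[n] z0).re + (f (g^[n + 1] z0)).re := by
        rw [← Complex.add_re]
        congr 1
        linear_combination h2
      have h6 : g^[n + 1] z0 ∈ X := by
        refine ⟨?_, ?_⟩
        · change z0.re ≤ (g^[n + 1] z0).re
          rw [h5]
          have : 0 ≤ (n : ℝ) * (f x).re := by positivity
          linarith
        · rw [mem_closedBall, dist_eq_norm]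
          exact hcon (n + 1)
      have h7 : (f x).re ≤ (f (g^[n + 1] z0)).re := hmin h6
      rw [h5]
      push_cast
      linarith
  obtain ⟨n, hn⟩ := exists_nat_gt ((‖c0‖ + r) / (f x).re)
  rw [div_lt_iff₀ hε] at hn
  have h1 := key n
  have h2 := hcon n
  have h3 : (g^[n] z0).re ≤ ‖g^[n] z0‖ := Complex.re_le_norm _
  have h4 : ‖g^[n] z0‖ ≤ ‖g^[n] z0 - c0‖ + ‖c0‖ := by
    have := norm_add_le (g^[n] z0 - c0) c0
    rwa [sub_add_cancel] at this
  linarith

lemma q_bound {c1 Q A : ℝ} (hc1 : 0 < c1) (h5 : c1 ^ 2 * A ^ 2 ≤ Q / 16) (h6 : Q - 1 / 4 ≤ A) :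
    Q ≤ 1 + 1 / (8 * c1 ^ 2) := by
  by_contra hcon
  push Not at hcon
  have hp : 0 < 1 / (8 * c1 ^ 2) := by positivity
  have h7 : 1 < Q := by linarith
  have h8 : (3 / 4 * Q) ^ 2 ≤ A ^ 2 := by
    apply pow_le_pow_left₀ (by positivity)
    linarith
  have h16 : 0 < c1 ^ 2 := by positivity
  have h9 : c1 ^ 2 * (9 / 16 * Q ^ 2) ≤ Q / 16 := by
    refine le_trans ?_ h5
    have : (3 / 4 * Q) ^ 2 = 9 / 16 * Q ^ 2 := by ring
    rw [this] at h8
    exact mul_le_mul_of_nonneg_left h8 h16.le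
  have h10 : c1 ^ 2 * 9 * Q ≤ 1 := by
    have h11 : 0 < Q := by linarith
    have h12 : (c1 ^ 2 * 9 * Q) * Q ≤ 1 * Q := by
      have e : (c1 ^ 2 * 9 * Q) * Q = 16 * (c1 ^ 2 * (9 / 16 * Q ^ 2)) := by ring
      rw [e]
      linarith
    exact le_of_mul_le_mul_right h12 h11
  have h13 : c1 ^ 2 * (1 / (8 * c1 ^ 2)) = 1 / 8 := by field_simp
  have h14 : c1 ^ 2 * (1 + 1 / (8 * c1 ^ 2)) ≤ c1 ^ 2 * Q :=
    mul_le_mul_of_nonneg_left hcon.le h16.le
  rw [mul_add, h13, mul_one] at h14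
  linarith

lemma disc_bound {f g : ℂ → ℂ} (h : InvBr f g) {c1 C : ℝ} (hc1 : 0 < c1) (hc14 : c1 ≤ 1 / 4)
    (hC : 1 ≤ C) {p q ζ : ℂ} (hqH : q ∈ HP) (hpn : ‖p‖ ≤ 1 / 4) (hqp : q - f q = p)
    (hqre : c1 ≤ q.re) (hqn : ‖q‖ ≤ C) (hζH : ζ ∈ HP) (hζ : ‖ζ - q‖ < c1 / (16 * (C + 1))) :
    ‖ζ - f ζ‖ < 1 := by
  set t1 : ℝ := c1 / (16 * (C + 1)) with ht1
  have ht10 : 0 < t1 := by positivity
  have ht11 : t1 ≤ c1 / 16 := by
    rw [ht1, div_le_div_iff₀ (by positivity) (by norm_num)]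
    nlinarith
  have hs := sp h.fd h.fm hζH hqH
  set D := ‖f ζ - f q‖ with hD
  have hD0 : 0 ≤ D := norm_nonneg _
  have h1 : c1 ≤ ‖ζ + starRingEnd ℂ q‖ := by
    have h2 := Complex.re_le_norm (ζ + starRingEnd ℂ q)
    rw [Complex.add_re, Complex.conj_re] at h2
    rw [mem_HP] at hζH
    linarith
  have hfqn : ‖f q‖ ≤ C + 1 := by
    have : f q = q - p := by rw [← hqp]; ring
    rw [this]
    refine (norm_sub_le _ _).trans ?_
    linarith
  have h2 : ‖f ζ + starRingEnd ℂ (f q)‖ ≤ D + 2 * (C + 1) := by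
    have e : f ζ + starRingEnd ℂ (f q) = (f ζ - f q) + (f q + starRingEnd ℂ (f q)) := by ring
    rw [e]
    refine (norm_add_le _ _).trans ?_
    have e2 := norm_add_le (f q) (starRingEnd ℂ (f q))
    rw [RCLike.norm_conj] at e2
    linarith
  have h3 : D * c1 ≤ t1 * (D + 2 * (C + 1)) := by
    calc D * c1 ≤ D * ‖ζ + starRingEnd ℂ q‖ := mul_le_mul_of_nonneg_left h1 hD0
      _ ≤ ‖ζ - q‖ * ‖f ζ + starRingEnd ℂ (f q)‖ := hs
      _ ≤ t1 * (D + 2 * (C + 1)) := mul_le_mul hζ.le h2 (norm_nonneg _) ht10.le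
  have h4 : t1 * (16 * (C + 1)) = c1 := by rw [ht1]; field_simp
  have h5 : D ≤ 1 / 4 := by
    have h6 : D * (c1 - t1) ≤ c1 / 8 := by
      have e1 : t1 * (D + 2 * (C + 1)) = D * t1 + (t1 * (16 * (C + 1))) / 8 := by ring
      rw [e1, h4] at h3
      linarith
    have h7 : 15 / 16 * c1 ≤ c1 - t1 := by linarith
    have h8 : D * (15 / 16 * c1) ≤ c1 / 8 := (mul_le_mul_of_nonneg_left h7 hD0).trans h6
    have h9 : D * (15 / 16) ≤ 1 / 8 := by
      have : (D * (15 / 16)) * c1 ≤ 1 / 8 * c1 := by linarith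
      exact le_of_mul_le_mul_right this hc1
    linarith
  have e : ζ - f ζ = p + (ζ - q) - (f ζ - f q) := by rw [← hqp]; ring
  rw [e]
  calc ‖p + (ζ - q) - (f ζ - f q)‖ ≤ ‖p + (ζ - q)‖ + D := norm_sub_le _ _
    _ ≤ ‖p‖ + ‖ζ - q‖ + D := by
        have := norm_add_le p (ζ - q)
        linarith
    _ < 1 := by linarith

set_option maxHeartbeats 1600000 in
theorem crossing {c1 : ℝ} (hc1 : 0 < c1) : ∃ κ : ℝ, 0 < κ ∧ ∀ f g : ℂ → ℂ, InvBr f g →
    ∀ z0 ∈ HP, c1 ≤ (z0 - f z0).re → ‖z0‖ ≤ 1 / 4 → ‖z0 - f z0‖ ≤ 1 / 4 →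
    ∀ (c0 : ℂ) (r : ℝ), ‖z0 - c0‖ ≤ r → ∃ (n : ℕ) (y : ℂ), y ∈ HP ∧ ‖y - c0‖ = r ∧
      ∀ a : ℂ, ‖a - y‖ < κ * ‖f y‖ → ∃ ζ ∈ HP, g^[n] ζ = a ∧ ‖ζ - f ζ‖ < 1 := by
  obtain ⟨C0, k0, K⟩ := W746.LD.exists_KC
  set C : ℝ := 1 + 1 / (8 * c1 ^ 2) with hC
  have hC1 : 1 ≤ C := by
    have : 0 < 1 / (8 * c1 ^ 2) := by positivity
    linarith
  by_cases hc14 : c1 ≤ 1 / 4
  swap
  · refine ⟨1, one_pos, fun f g h z0 hz0 h1 h2 h3 => ?_⟩
    exfalso
    have := Complex.re_le_norm (z0 - f z0)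
    linarith
  set T : ℝ := C ^ 2 / c1 with hT
  set η : ℝ := c1 / 2 with hη
  have hη0 : 0 < η := by positivity
  have hT0 : 0 < T := by positivity
  have hTη : 0 ≤ T - η := by
    have : c1 ≤ T := by
      rw [hT, le_div_iff₀ hc1]
      nlinarith
    linarith
  obtain ⟨M, hM1, hM⟩ := K.chain hη0 hT0
  set t1 : ℝ := c1 / (16 * (C + 1)) with ht1
  have ht10 : 0 < t1 := by positivity
  have ht11 : t1 ≤ c1 / 16 := by
    rw [ht1, div_le_div_iff₀ (by positivity) (by norm_num)]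
    nlinarith
  have hk0 := K.pos
  have hM0 : 0 < M := by linarith
  refine ⟨k0 * t1 / M, by positivity, ?_⟩
  intro f g h z0 hz0 hw1 hz0n hw0n c0 r hr
  set w0 : ℂ := z0 - f z0 with hw0
  have hw0H : w0 ∈ HP := by rw [mem_HP]; linarith
  have hgw0 : g w0 = z0 := h.l z0 hz0 hw0H
  have hf0 : 0 < (f z0).re := h.fm hz0
  have hz0re : c1 ≤ z0.re := by
    have : w0.re = z0.re - (f z0).re := by rw [hw0, Complex.sub_re]
    linarith
  -- the first exit
  obtain ⟨n, hn1, hn2⟩ : ∃ n : ℕ, ‖g^[n] z0 - c0‖ ≤ r ∧ r < ‖g^[n + 1] z0 - c0‖ := by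
    classical
    have hex := h.leaves hz0 c0 r
    set m := Nat.find hex with hm
    have hmspec := Nat.find_spec hex
    rw [← hm] at hmspec
    rcases Nat.eq_zero_or_pos m with h0 | hpos
    · rw [h0] at hmspec
      simp only [Function.iterate_zero, id] at hmspec
      exact absurd hr (not_le.2 hmspec)
    · obtain ⟨n, hn⟩ := Nat.exists_eq_succ_of_ne_zero hpos.ne'
      refine ⟨n, ?_, ?_⟩
      · have := Nat.find_min hex (m := n) (by rw [← hm, hn]; exact Nat.lt_succ_self n)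
        exact not_lt.1 this
      · rw [hn] at hmspec
        exact hmspec
  -- the path
  set x : ℝ → ℂ := fun t => (1 - (t : ℂ)) * w0 + t * z0 with hx
  have hxre : ∀ t ∈ Icc (0 : ℝ) 1, c1 ≤ (x t).re := by
    intro t ht
    have : (x t).re = (1 - t) * w0.re + t * z0.re := by
      rw [hx]
      simp
    rw [this]
    nlinarith [ht.1, ht.2, mul_le_mul_of_nonneg_left hw1 (by linarith [ht.2] : 0 ≤ 1 - t),
      mul_le_mul_of_nonneg_left hz0re ht.1]
  have hxH : ∀ t ∈ Icc (0 : ℝ) 1, x t ∈ HP := by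
    intro t ht
    rw [mem_HP]
    linarith [hxre t ht]
  have hxn : ∀ t ∈ Icc (0 : ℝ) 1, ‖x t‖ ≤ 1 / 4 := by
    intro t ht
    rw [hx]
    simp only
    refine (norm_add_le _ _).trans ?_
    rw [norm_mul, norm_mul]
    have e1 : ‖(1 : ℂ) - (t : ℂ)‖ = 1 - t := by
      rw [show (1 : ℂ) - (t : ℂ) = ((1 - t : ℝ) : ℂ) by push_cast; rfl, Complex.norm_real,
        Real.norm_eq_abs, abs_of_nonneg (by linarith [ht.2])]
    have e2 : ‖(t : ℂ)‖ = t := by
      rw [Complex.norm_real, Real.norm_eq_abs, abs_of_nonneg ht.1]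
    rw [e1, e2]
    nlinarith [mul_le_mul_of_nonneg_left hw0n (by linarith [ht.2] : 0 ≤ 1 - t),
      mul_le_mul_of_nonneg_left hz0n ht.1]
  have hxcont : ContinuousOn x (Icc 0 1) := by
    rw [hx]
    fun_prop
  have hpath : ContinuousOn (fun t => ‖g^[n + 1] (x t) - c0‖) (Icc 0 1) :=
    (((h.iter_diff (n + 1)).continuousOn.comp hxcont hxH).sub continuousOn_const).norm
  have hx0 : x 0 = w0 := by rw [hx]; simp
  have hx1 : x 1 = z0 := by rw [hx]; simp
  have ha0 : ‖g^[n + 1] (x 0) - c0‖ ≤ r := by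
    rw [hx0, Function.iterate_succ_apply, hgw0]
    exact hn1
  have ha1 : r ≤ ‖g^[n + 1] (x 1) - c0‖ := by
    rw [hx1]
    exact hn2.le
  obtain ⟨t, ht, hty⟩ := intermediate_value_Icc (by norm_num : (0 : ℝ) ≤ 1) hpath ⟨ha0, ha1⟩
  simp only at hty
  -- the points
  set p : ℂ := x t with hp
  set q : ℂ := g p with hq
  have hpH : p ∈ HP := hxH t ht
  have hqH : q ∈ HP := h.gm hpH
  have hpre : c1 ≤ p.re := hxre t ht
  have hpn : ‖p‖ ≤ 1 / 4 := hxn t ht
  have hqp : q - f q = p := h.r p hpH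
  have hfq : 0 < (f q).re := h.fm hqH
  have hqre : c1 ≤ q.re := by
    have : q.re = p.re + (f q).re := by
      rw [← Complex.add_re]
      congr 1
      linear_combination hqp
    linarith
  have hqn : ‖q‖ ≤ C := by
    have h1 := sp_re h.gd h.gm hpH hw0H
    rw [hgw0, ← hq] at h1
    have h2 : ‖p + starRingEnd ℂ w0‖ ^ 2 ≤ 1 / 4 := by
      have : ‖p + starRingEnd ℂ w0‖ ≤ 1 / 2 := by
        refine (norm_add_le _ _).trans ?_
        rw [RCLike.norm_conj]
        linarith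
      nlinarith [norm_nonneg (p + starRingEnd ℂ w0)]
    have h3 : q.re ≤ ‖q‖ := Complex.re_le_norm _
    have h4 : z0.re ≤ 1 / 4 := (Complex.re_le_norm _).trans hz0n
    have hpp : 0 ≤ p.re := by linarith
    have hww : 0 ≤ w0.re := by linarith
    have h5 : c1 ^ 2 * ‖q + starRingEnd ℂ z0‖ ^ 2 ≤ ‖q‖ / 16 := by
      calc c1 ^ 2 * ‖q + starRingEnd ℂ z0‖ ^ 2 = c1 * c1 * ‖q + starRingEnd ℂ z0‖ ^ 2 := by ring
        _ ≤ p.re * w0.re * ‖q + starRingEnd ℂ z0‖ ^ 2 := by gcongr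
        _ ≤ q.re * z0.re * ‖p + starRingEnd ℂ w0‖ ^ 2 := h1
        _ ≤ ‖q‖ * (1 / 4) * (1 / 4) := by
            apply mul_le_mul _ h2 (by positivity) (by positivity)
            exact mul_le_mul h3 h4 (by linarith) (norm_nonneg _)
        _ = ‖q‖ / 16 := by ring
    have h6 : ‖q‖ - 1 / 4 ≤ ‖q + starRingEnd ℂ z0‖ := by
      have := norm_sub_norm_le q (-(starRingEnd ℂ z0))
      rw [norm_neg, RCLike.norm_conj, sub_neg_eq_add] at this
      linarith
    exact q_bound hc1 h5 h6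
  -- the big disc
  have hball : ball (T : ℂ) T ⊆ HP := by
    intro ζ hζ
    rw [mem_ball, dist_eq_norm] at hζ
    have h1 := Complex.abs_re_le_norm (ζ - T)
    rw [Complex.sub_re, Complex.ofReal_re] at h1
    rw [mem_HP]
    have := (abs_le.1 h1).1
    linarith
  have hin : ∀ ζ : ℂ, c1 ≤ ζ.re → ‖ζ‖ ≤ C → ζ ∈ closedBall (T : ℂ) (T - η) := by
    intro ζ h1 h2
    rw [mem_closedBall, dist_eq_norm]
    apply le_of_sq_le_sq _ hTη
    have h3 : ‖ζ - T‖ ^ 2 = ‖ζ‖ ^ 2 - 2 * T * ζ.re + T ^ 2 := by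
      rw [← Complex.normSq_eq_norm_sq, ← Complex.normSq_eq_norm_sq, Complex.normSq_apply,
        Complex.normSq_apply]
      simp
      ring
    rw [h3]
    have h4 : ‖ζ‖ ^ 2 ≤ C ^ 2 := by gcongr
    have h5 : T * c1 = C ^ 2 := by rw [hT]; field_simp
    have h6 : T * c1 ≤ T * ζ.re := by gcongr
    rw [hη]
    nlinarith
  have hU : W746.LD.Univ g^[n] (T : ℂ) (T - η + η) := by
    rw [sub_add_cancel]
    exact ⟨(h.iter_diff n).mono hball, (h.iter_inj n).mono hball⟩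
  have hchain := (hM g^[n] T (T - η) hTη (by linarith) hU q (hin q hqre hqn) p
    (hin p hpre (by linarith))).2
  set y : ℂ := g^[n] q with hy
  have hyH : y ∈ HP := h.iter_mem n hqH
  have hy2 : g^[n + 1] p = y := by rw [Function.iterate_succ_apply]
  have hfy : y - f y = g^[n] p := by
    rw [← hy2, Function.iterate_succ_apply']
    exact h.r _ (h.iter_mem n hpH)
  have hfy2 : ‖f y‖ ≤ M * ‖deriv g^[n] q‖ := by
    have : f y = -(g^[n] p - g^[n] q) := by
      rw [← hfy, ← hy]; ring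
    rw [this, norm_neg]
    exact hchain
  refine ⟨n, y, hyH, by rw [← hy2]; exact hty, fun a ha => ?_⟩
  have hb1 : ball q t1 ⊆ HP := by
    intro ζ hζ
    rw [mem_ball, dist_eq_norm] at hζ
    have h1 := Complex.abs_re_le_norm (ζ - q)
    rw [Complex.sub_re] at h1
    rw [mem_HP]
    have := (abs_le.1 h1).1
    linarith
  have hU1 : W746.LD.Univ g^[n] q t1 := ⟨(h.iter_diff n).mono hb1, (h.iter_inj n).mono hb1⟩
  obtain ⟨ζ, hζ, hζa⟩ : ∃ ζ ∈ ball q t1, g^[n] ζ = a := by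
    by_contra hcon
    push Not at hcon
    have h1 := K.komit g^[n] q t1 ht10 hU1 a hcon
    rw [← hy, norm_sub_rev] at h1
    have h2 : k0 * t1 / M * ‖f y‖ ≤ k0 * t1 * ‖deriv g^[n] q‖ := by
      calc k0 * t1 / M * ‖f y‖ ≤ k0 * t1 / M * (M * ‖deriv g^[n] q‖) := by gcongr
        _ = _ := by field_simp
    linarith
  refine ⟨ζ, hb1 hζ, hζa, ?_⟩
  rw [mem_ball, dist_eq_norm] at hζ
  exact disc_bound h hc1 hc14 (by linarith) hqH hpn hqp hqre hqn (hb1 (by rw [mem_ball, dist_eq_norm]; exact hζ)) hζ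

end Pool.Agent.R239.Newt
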