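import Pool.Agent.R239.Newt.Core

/-!
# Unscaling the core theorem
-/

set_option autoImplicit false

namespace Pool.Agent.R239.Newt

open Filter Topology Metric Set

variable {ι : Type} [Fintype ι]

lemma S_affine {b : ι → ℂ} {α l : ℂ} (_hl : l ≠ 0) (z : ℂ) :
    S (fun j => α + l * b j) (α + l * z) = l⁻¹ * S b z := by
  unfold S
  rw [Finset.mul_sum]
  apply Finset.sum_congr rfl
  intro j _
  rw [← mul_inv]
  congr 1
  ring

lemma Nw_affine {b : ι → ℂ} {α l : ℂ} (hl : l ≠ 0) (z : ℂ) :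
    Nw (fun j => α + l * b j) (α + l * z) = α + l * Nw b z := by
  by_cases h : ∃ j, z = b j
  · rw [Nw_root h, Nw_root]
    obtain ⟨j, hj⟩ := h
    exact ⟨j, by rw [hj]⟩
  · push Not at h
    rw [Nw_of_ne h, Nw_of_ne, S_affine hl, mul_inv, inv_inv]
    · ring
    · intro j hj
      apply h j
      have : l * z = l * b j := by linear_combination hj
      exact mul_left_cancel₀ hl this

lemma conv_affine {b : ι → ℂ} {α l : ℂ} (hl : l ≠ 0) {z : ℂ} (h : Conv b 0 z) :
    Conv (fun j => α + l * b j) α (α + l * z) := by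
  have hit : ∀ n : ℕ, (Nw (fun j => α + l * b j))^[n] (α + l * z) = α + l * (Nw b)^[n] z := by
    intro n
    induction n with
    | zero => rfl
    | succ n ih => rw [Function.iterate_succ_apply', Function.iterate_succ_apply', ih,
        Nw_affine hl]
  refine ⟨fun n => ?_, ?_⟩
  · rw [hit]
    rcases h.1 n with ⟨j, hj⟩ | h2
    · exact Or.inl ⟨j, by rw [hj]⟩
    · right
      rw [S_affine hl]
      exact mul_ne_zero (inv_ne_zero hl) h2
  · simp_rw [hit]
    have := (h.2.const_mul l).const_add α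
    rwa [mul_zero, add_zero] at this

/-- all roots equal -/
lemma conv_all_eq {b : ι → ℂ} {α : ℂ} (hne : Nonempty ι) (h : ∀ j, b j = α) (z : ℂ) :
    Conv b α z := by
  have hd : (1 : ℝ) ≤ Fintype.card ι := by
    have := Fintype.card_pos_iff.2 hne
    exact_mod_cast this
  have hd0 : (Fintype.card ι : ℂ) ≠ 0 := by
    have : (0 : ℝ) < Fintype.card ι := by linarith
    exact_mod_cast this.ne'
  have hS : ∀ w, S b w = Fintype.card ι * (w - α)⁻¹ := by
    intro w
    unfold S
    simp [h]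
  have hN : ∀ w, Nw b w = α + (1 - (Fintype.card ι : ℂ)⁻¹) * (w - α) := by
    intro w
    by_cases hw : w = α
    · obtain ⟨j⟩ := hne
      rw [Nw_root ⟨j, by rw [hw, h j]⟩, hw]
      ring
    · rw [Nw_of_ne (fun j => by rw [h j]; exact hw), hS, mul_inv, inv_inv]
      ring
  have hit : ∀ n : ℕ, (Nw b)^[n] z = α + (1 - (Fintype.card ι : ℂ)⁻¹) ^ n * (z - α) := by
    intro n
    induction n with
    | zero => simp
    | succ n ih =>
      rw [Function.iterate_succ_apply', ih, hN]
      ring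
  refine ⟨fun n => ?_, ?_⟩
  · by_cases hw : (Nw b)^[n] z = α
    · obtain ⟨j⟩ := hne
      exact Or.inl ⟨j, by rw [hw, h j]⟩
    · right
      rw [hS]
      exact mul_ne_zero hd0 (inv_ne_zero (sub_ne_zero.2 hw))
  · simp_rw [hit]
    have h1 : Tendsto (fun n : ℕ => (1 - (Fintype.card ι : ℂ)⁻¹) ^ n) atTop (𝓝 0) := by
      apply tendsto_pow_atTop_nhds_zero_of_norm_lt_one
      have : (1 : ℂ) - (Fintype.card ι : ℂ)⁻¹ = ((1 - (Fintype.card ι : ℝ)⁻¹ : ℝ) : ℂ) := by
        push_cast; rfl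
      rw [this, Complex.norm_real, Real.norm_eq_abs, abs_of_nonneg]
      · have : 0 < (Fintype.card ι : ℝ)⁻¹ := by positivity
        linarith
      · have : (Fintype.card ι : ℝ)⁻¹ ≤ 1 := inv_le_one_of_one_le₀ hd
        linarith
    have h2 := (h1.mul_const (z - α)).const_add α
    rwa [zero_mul, add_zero] at h2

/-- the choice of scale -/
lemma exists_scale {b : ι → ℂ} (hre : ∀ j, (b j).re ≤ 0) (hb : ∀ j, ‖b j‖ ≤ 2)
    (hJ1 : (J1 b).Nonempty) : ∃ s : ℝ, 0 < s ∧ ‖(s : ℂ) * S1 b s‖ = 1 / 100 := by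
  have hne : ∀ s ∈ Icc (0 : ℝ) 4, ∀ j ∈ J1 b, (s : ℂ) - b j ≠ 0 := by
    intro s hs j hj h
    have h1 : (s : ℂ) = b j := sub_eq_zero.1 h
    have h2 := hre j
    rw [← h1, Complex.ofReal_re] at h2
    have h3 : s = 0 := le_antisymm h2 hs.1
    rw [mem_J1] at hj
    apply hj
    rw [← h1, h3, Complex.ofReal_zero]
  have hcont : ContinuousOn (fun s : ℝ => ‖(s : ℂ) * S1 b s‖) (Icc 0 4) := by
    apply ContinuousOn.norm
    apply ContinuousOn.mul
    · exact Complex.continuous_ofReal.continuousOn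
    · unfold S1
      apply continuousOn_finsetSum
      intro j hj
      apply ContinuousOn.inv₀
      · fun_prop
      · intro s hs
        exact hne s hs j hj
  have h0 : ‖((0 : ℝ) : ℂ) * S1 b ((0 : ℝ) : ℂ)‖ ≤ 1 / 100 := by
    rw [Complex.ofReal_zero, zero_mul, norm_zero]
    norm_num
  have h4 : 1 / 100 ≤ ‖((4 : ℝ) : ℂ) * S1 b ((4 : ℝ) : ℂ)‖ := by
    obtain ⟨j0, hj0⟩ := hJ1
    refine le_trans ?_ (Complex.re_le_norm _)
    rw [Complex.re_ofReal_mul]
    unfold S1
    rw [Complex.re_sum]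
    have hpos : ∀ j ∈ J1 b, 0 ≤ (((4 : ℝ) : ℂ) - b j)⁻¹.re := by
      intro j _
      rw [inv_re, Complex.sub_re, Complex.ofReal_re]
      have := hre j
      apply div_nonneg _ (by positivity)
      linarith
    have h6 := Finset.single_le_sum (f := fun j => (((4 : ℝ) : ℂ) - b j)⁻¹.re) hpos hj0
    have h7 : 1 / 9 ≤ (((4 : ℝ) : ℂ) - b j0)⁻¹.re := by
      rw [inv_re, Complex.sub_re, Complex.ofReal_re]
      have e1 := hre j0
      have e2 : ‖((4 : ℝ) : ℂ) - b j0‖ ≤ 6 := by
        refine (norm_sub_le _ _).trans ?_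
        rw [Complex.norm_real]
        have := hb j0
        norm_num
        linarith
      have e3 : 0 < ‖((4 : ℝ) : ℂ) - b j0‖ :=
        norm_pos_iff.2 (hne 4 (by norm_num) j0 hj0)
      rw [div_le_div_iff₀ (by norm_num) (by positivity)]
      nlinarith
    linarith
  obtain ⟨s, hs, hs1⟩ := intermediate_value_Icc (by norm_num : (0 : ℝ) ≤ 4) hcont ⟨h0, h4⟩
  simp only at hs1
  refine ⟨s, lt_of_le_of_ne hs.1 ?_, hs1⟩
  rintro rfl
  rw [Complex.ofReal_zero, zero_mul, norm_zero] at hs1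
  norm_num at hs1

/-- the disc of good starting points for a root family -/
theorem family {r : ℝ} (hr : 1 < r) : ∃ ρ : ℝ, 0 < ρ ∧ ∀ (ι : Type) [Fintype ι] (b : ι → ℂ),
    (∀ j, ‖b j‖ < 1) → ∀ (j0 : ι) (u : ℂ), ‖u‖ = 1 →
    (∀ j, (starRingEnd ℂ u * (b j - b j0)).re ≤ 0) →
    ∃ y, ‖y‖ = r ∧ ∀ a, ‖a - y‖ < ρ / Fintype.card ι → Conv b (b j0) a := by
  obtain ⟨κ, hκ, hcore⟩ := core_scaled
  have hr1 : 0 < r - 1 := by linarith
  refine ⟨min (κ * (r - 1)) (3 * (r - 1)), by positivity, ?_⟩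
  intro ι _ b hb j0 u hu hsup
  have hd : (1 : ℝ) ≤ Fintype.card ι := by
    have := Fintype.card_pos_iff.2 ⟨j0⟩
    exact_mod_cast this
  have hd0 : (0 : ℝ) < Fintype.card ι := by linarith
  by_cases hall : ∀ j, b j = b j0
  · refine ⟨r, ?_, fun a _ => conv_all_eq ⟨j0⟩ hall a⟩
    rw [Complex.norm_real, Real.norm_eq_abs, abs_of_pos (by linarith)]
  push Not at hall
  obtain ⟨j1, hj1⟩ := hall
  have huu : u * starRingEnd ℂ u = 1 := by
    rw [Complex.mul_conj, Complex.normSq_eq_norm_sq, hu]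
    norm_num
  have hu0 : u ≠ 0 := by
    intro h
    rw [h, norm_zero] at hu
    norm_num at hu
  -- normalized, unscaled
  set b1 : ι → ℂ := fun j => starRingEnd ℂ u * (b j - b j0) with hb1
  have hb1re : ∀ j, (b1 j).re ≤ 0 := hsup
  have hb1n : ∀ j, ‖b1 j‖ ≤ 2 := by
    intro j
    rw [hb1]
    simp only
    rw [norm_mul, RCLike.norm_conj, hu, one_mul]
    refine (norm_sub_le _ _).trans ?_
    linarith [hb j, hb j0]
  have hj1' : (J1 b1).Nonempty := by
    refine ⟨j1, mem_J1.2 ?_⟩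
    rw [hb1]
    simp only
    refine mul_ne_zero ?_ (sub_ne_zero.2 hj1)
    rw [Ne, map_eq_zero]
    exact hu0
  obtain ⟨s, hs0, hs⟩ := exists_scale hb1re hb1n hj1'
  have hsc : (s : ℂ) ≠ 0 := by exact_mod_cast hs0.ne'
  set b' : ι → ℂ := fun j => b1 j / s with hb'
  have hb're : ∀ j, (b' j).re ≤ 0 := by
    intro j
    rw [hb']
    simp only
    rw [Complex.div_ofReal_re]
    exact div_nonpos_of_nonpos_of_nonneg (hb1re j) hs0.le
  have hb'0 : ∃ j, b' j = 0 := ⟨j0, by rw [hb', hb1]; simp⟩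
  have hJ : J1 b' = J1 b1 := by
    ext j
    rw [mem_J1, mem_J1, hb']
    simp only
    rw [Ne, div_eq_zero_iff, or_iff_left hsc]
  have hS1 : S1 b' 1 = s * S1 b1 s := by
    unfold S1
    rw [hJ, Finset.mul_sum]
    apply Finset.sum_congr rfl
    intro j hj
    rw [hb']
    simp only
    have : (1 : ℂ) - b1 j / s = (s - b1 j) / s := by field_simp
    rw [this, inv_div]
    rfl
  set l : ℂ := u * s with hl
  have hl0 : l ≠ 0 := mul_ne_zero hu0 hsc
  have hln : ‖l‖ = s := by
    rw [hl, norm_mul, hu, one_mul, Complex.norm_real, Real.norm_eq_abs, abs_of_pos hs0]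
  have hbb : (fun j => b j0 + l * b' j) = b := by
    funext j
    rw [hl, hb', hb1]
    simp only
    have : u * (s : ℂ) * (starRingEnd ℂ u * (b j - b j0) / s) =
        (u * starRingEnd ℂ u) * (b j - b j0) := by field_simp
    rw [this, huu]
    ring
  set c0 : ℂ := -(b j0) / l with hc0
  have hc0l : l * c0 = -(b j0) := by rw [hc0]; field_simp
  have hc0n : ‖c0‖ < r / s := by
    rw [hc0, norm_div, norm_neg, hln]
    apply div_lt_div_of_pos_right _ hs0
    linarith [hb j0]
  have hback : ∀ a' : ℂ, Conv b' 0 a' → Conv b (b j0) (b j0 + l * a') := by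
    intro a' ha'
    have := conv_affine (α := b j0) hl0 ha'
    rwa [hbb] at this
  have hnorm : ∀ y' : ℂ, ‖y' - c0‖ = r / s → ‖b j0 + l * y'‖ = r := by
    intro y' hy'
    have : b j0 + l * y' = l * (y' - c0) := by rw [mul_sub, hc0l]; ring
    rw [this, norm_mul, hln, hy']
    field_simp
  have hdist : ∀ a y' : ℂ, ‖(a - b j0) / l - y'‖ = ‖a - (b j0 + l * y')‖ / s := by
    intro a y'
    have : (a - b j0) / l - y' = (a - (b j0 + l * y')) / l := by field_simp; ring
    rw [this, norm_div, hln]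
  have hinv : ∀ a : ℂ, b j0 + l * ((a - b j0) / l) = a := by
    intro a
    field_simp
    ring
  rcases hcore ι b' hb're hb'0 (by rw [hS1]; exact hs) c0 (r / s) hc0n with
    ⟨y', hy'1, hy'S, hy'2⟩ | ⟨y', hy'1, hy'3, hy'2⟩
  · refine ⟨b j0 + l * y', hnorm y' hy'1, fun a ha => ?_⟩
    rw [← hinv a]
    apply hback
    apply hy'2
    rw [hdist]
    have hyn := hnorm y' hy'1
    have hSle : ‖S b' y'‖ ≤ s * Fintype.card ι / (r - 1) := by
      have h1 := S_affine (b := b') (α := b j0) hl0 y'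
      rw [hbb] at h1
      have h2 : S b' y' = l * S b (b j0 + l * y') := by
        rw [h1]
        field_simp
      rw [h2, norm_mul, hln]
      have h3 : ‖S b (b j0 + l * y')‖ ≤ Fintype.card ι * (r - 1)⁻¹ := by
        unfold S
        refine (norm_sum_le _ _).trans ?_
        have : ∀ j ∈ Finset.univ, ‖(b j0 + l * y' - b j)⁻¹‖ ≤ (r - 1)⁻¹ := by
          intro j _
          rw [norm_inv]
          apply inv_anti₀ hr1
          have := norm_sub_norm_le (b j0 + l * y') (b j)
          rw [hyn] at this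
          linarith [hb j]
        refine (Finset.sum_le_card_nsmul _ _ _ this).trans ?_
        rw [nsmul_eq_mul, Finset.card_univ]
      calc s * ‖S b (b j0 + l * y')‖ ≤ s * (Fintype.card ι * (r - 1)⁻¹) := by gcongr
        _ = _ := by field_simp
    have hSpos : 0 < ‖S b' y'‖ := norm_pos_iff.2 hy'S
    have h5 : (r - 1) / (s * Fintype.card ι) ≤ ‖(S b' y')⁻¹‖ := by
      rw [norm_inv, ← inv_div]
      exact inv_anti₀ hSpos hSle
    have h6 : ‖a - (b j0 + l * y')‖ < κ * (r - 1) / Fintype.card ι := by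
      refine ha.trans_le ?_
      gcongr
      exact min_le_left _ _
    calc ‖a - (b j0 + l * y')‖ / s < (κ * (r - 1) / Fintype.card ι) / s :=
          div_lt_div_of_pos_right h6 hs0
      _ = κ * ((r - 1) / (s * Fintype.card ι)) := by field_simp
      _ ≤ κ * ‖(S b' y')⁻¹‖ := by gcongr
  · refine ⟨b j0 + l * y', hnorm y' hy'1, fun a ha => ?_⟩
    rw [← hinv a]
    apply hback
    apply hy'2
    rw [hdist]
    have h1 : 4 * (r - 1) ≤ s := by
      have e1 : r / s ≤ 1 / 4 + ‖c0‖ := by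
        rw [← hy'1]
        refine (norm_sub_le _ _).trans ?_
        linarith
      have e2 : ‖c0‖ < 1 / s := by
        rw [hc0, norm_div, norm_neg, hln]
        apply div_lt_div_of_pos_right _ hs0
        exact hb j0
      have e3 : r / s < 1 / 4 + 1 / s := by linarith
      have e4 : r / s * s < (1 / 4 + 1 / s) * s := by gcongr
      have e5 : r / s * s = r := by field_simp
      have e6 : (1 / 4 + 1 / s) * s = s / 4 + 1 := by field_simp
      rw [e5, e6] at e4
      linarith
    have h6 : ‖a - (b j0 + l * y')‖ < 3 * (r - 1) := by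
      refine ha.trans_le ?_
      rw [div_le_iff₀ hd0]
      refine (min_le_right _ _).trans ?_
      nlinarith
    rw [div_lt_iff₀ hs0]
    linarith

end Pool.Agent.R239.Newt
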