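import Pool.Agent.R239.Newt.SP
import Pool.Agent.Helper265.BrK

/-!
# The inverse branch of `z - f z` on the right half plane
-/

set_option autoImplicit false

namespace Pool.Agent.R239.Newt

open Filter Topology Metric Set

variable {f : ℂ → ℂ}

lemma norm_lt_add_real {A : ℂ} {t : ℝ} (hA : 0 < A.re) (ht : 0 < t) :
    ‖A‖ < ‖A + (t : ℂ)‖ := by
  have h1 : ‖A‖ ^ 2 < ‖A + (t : ℂ)‖ ^ 2 := by
    rw [← Complex.normSq_eq_norm_sq, ← Complex.normSq_eq_norm_sq, Complex.normSq_apply,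
      Complex.normSq_apply]
    simp
    nlinarith
  exact lt_of_pow_lt_pow_left₀ 2 (norm_nonneg _) h1

/-- strict contraction -/
lemma contr (hd : DifferentiableOn ℂ f HP) (hm : MapsTo f HP HP) {w z z' : ℂ} (hw : w ∈ HP)
    (hz : z ∈ HP) (hz' : z' ∈ HP) (hne : z ≠ z') :
    ‖(w + f z) - (w + f z')‖ * ‖z + starRingEnd ℂ z'‖ <
      ‖z - z'‖ * ‖(w + f z) + starRingEnd ℂ (w + f z')‖ := by
  have h := sp hd hm hz hz'
  have h1 : (w + f z) - (w + f z') = f z - f z' := by ring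
  have h2 : (w + f z) + starRingEnd ℂ (w + f z') =
      (f z + starRingEnd ℂ (f z')) + ((2 * w.re : ℝ) : ℂ) := by
    rw [map_add]
    have : w + starRingEnd ℂ w = ((2 * w.re : ℝ) : ℂ) := Complex.add_conj w
    rw [← this]
    ring
  have h3 : 0 < (f z + starRingEnd ℂ (f z')).re := by
    have a1 := hm hz
    have a2 := hm hz'
    rw [mem_HP] at a1 a2
    rw [Complex.add_re, Complex.conj_re]
    linarith
  have h4 : ‖f z + starRingEnd ℂ (f z')‖ <
      ‖(f z + starRingEnd ℂ (f z')) + ((2 * w.re : ℝ) : ℂ)‖ := by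
    apply norm_lt_add_real h3
    rw [mem_HP] at hw
    linarith
  rw [h1, h2]
  have h5 : 0 < ‖z - z'‖ := norm_pos_iff.2 (sub_ne_zero.2 hne)
  exact h.trans_lt (mul_lt_mul_of_pos_left h4 h5)

lemma N_inj (hd : DifferentiableOn ℂ f HP) (hm : MapsTo f HP HP) {z z' : ℂ} (hz : z ∈ HP)
    (hz' : z' ∈ HP) (h1 : z - f z ∈ HP) (h2 : z - f z = z' - f z') : z = z' := by
  by_contra hne
  have h := contr hd hm h1 hz hz' hne
  have h3 : z - f z + f z = z := by ring
  have h4 : z - f z + f z' = z' := by rw [h2]; ring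
  rw [h3, h4] at h
  exact lt_irrefl _ h

lemma exists_fixed (hd : DifferentiableOn ℂ f HP) (hm : MapsTo f HP HP) {w : ℂ} (hw : w ∈ HP)
    {R : ℝ} (hR0 : ‖w‖ ≤ R) (hR : ∀ z : ℂ, w.re ≤ z.re → ‖z‖ ≤ R → ‖w + f z‖ ≤ R) :
    ∃ z ∈ HP, w + f z = z := by
  rw [mem_HP] at hw
  set X : Set ℂ := {z | w.re ≤ z.re} ∩ closedBall 0 R with hX
  have hXc : IsCompact X := (isCompact_closedBall (0 : ℂ) R).inter_left
    (isClosed_le continuous_const Complex.continuous_re)
  have hXH : X ⊆ HP := fun z hz => by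
    have : w.re ≤ z.re := hz.1
    rw [mem_HP]
    linarith
  have hwX : w ∈ X := ⟨le_refl w.re, by simpa using hR0⟩
  have hTX : ∀ z ∈ X, w + f z ∈ X := by
    intro z hz
    have h1 : w.re ≤ z.re := hz.1
    have h2 : ‖z‖ ≤ R := by simpa using hz.2
    refine ⟨?_, by simpa using hR z h1 h2⟩
    have := hm (hXH hz)
    rw [mem_HP] at this
    change w.re ≤ (w + f z).re
    rw [Complex.add_re]
    linarith
  have hfc : ContinuousOn f X := hd.continuousOn.mono hXH
  have hcont : ContinuousOn (fun z => ‖z - (w + f z)‖ / ‖z + starRingEnd ℂ (w + f z)‖) X := by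
    apply ContinuousOn.div
    · exact (continuousOn_id.sub (continuousOn_const.add hfc)).norm
    · exact (continuousOn_id.add (Complex.continuous_conj.comp_continuousOn
        (continuousOn_const.add hfc))).norm
    · intro z hz
      exact (norm_pos_iff.2 (add_conj_ne (hXH hz) (hXH (hTX z hz)))).ne'
  obtain ⟨z, hz, hmin⟩ := hXc.exists_isMinOn ⟨w, hwX⟩ hcont
  refine ⟨z, hXH hz, ?_⟩
  by_contra hne
  have hz' := hTX z hz
  have h1 := contr hd hm (w := w) hw (hXH hz) (hXH hz') (fun h => hne h.symm)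
  have h2 := hmin hz'
  simp only [Set.mem_ofPred_eq] at h2
  have p1 : 0 < ‖z + starRingEnd ℂ (w + f z)‖ :=
    norm_pos_iff.2 (add_conj_ne (hXH hz) (hXH hz'))
  have p2 : 0 < ‖(w + f z) + starRingEnd ℂ (w + f (w + f z))‖ :=
    norm_pos_iff.2 (add_conj_ne (hXH hz') (hXH (hTX _ hz')))
  rw [div_le_div_iff₀ p1 p2] at h2
  linarith

/-- the inverse branch -/
theorem exists_inv (hd : DifferentiableOn ℂ f HP) (hm : MapsTo f HP HP)
    (hgrow : ∀ w ∈ HP, ∃ R : ℝ, ‖w‖ ≤ R ∧ ∀ z : ℂ, w.re ≤ z.re → ‖z‖ ≤ R → ‖w + f z‖ ≤ R) :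
    ∃ g : ℂ → ℂ, DifferentiableOn ℂ g HP ∧ MapsTo g HP HP ∧ InjOn g HP ∧
      (∀ w ∈ HP, g w - f (g w) = w) ∧ (∀ z ∈ HP, z - f z ∈ HP → g (z - f z) = z) := by
  set N : ℂ → ℂ := fun z => z - f z with hN
  set Ω : Set ℂ := HP ∩ N ⁻¹' HP with hΩ
  have hNd : DifferentiableOn ℂ N HP := differentiableOn_id.sub hd
  have hΩo : IsOpen Ω := hNd.continuousOn.isOpen_inter_preimage isOpen_HP isOpen_HP
  have hi : InjOn N Ω := by
    intro z hz z' hz' h
    exact N_inj hd hm hz.1 hz'.1 hz.2 h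
  have hsurj : ∀ w ∈ HP, w ∈ N '' Ω := by
    intro w hw
    obtain ⟨R, hR0, hR⟩ := hgrow w hw
    obtain ⟨z, hz, hzw⟩ := exists_fixed hd hm hw hR0 hR
    have : N z = w := by
      rw [hN]
      simp only
      rw [← hzw]
      have h2 : w + f z = z := hzw
      rw [h2]
      linear_combination -hzw
    exact ⟨z, ⟨hz, by rw [Set.mem_preimage, this]; exact hw⟩, this⟩
  have hNd' : DifferentiableOn ℂ N Ω := hNd.mono inter_subset_left
  refine ⟨Function.invFunOn N Ω, ?_, ?_, ?_, ?_, ?_⟩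
  · intro w hw
    exact (Helper265.Br.differentiableAt_inv hΩo hNd' hi (hsurj w hw)).differentiableWithinAt
  · intro w hw
    exact (Helper265.Br.invFunOn_mem (hsurj w hw)).1
  · intro w hw w' hw' h
    have h1 := Helper265.Br.invFunOn_right (hsurj w hw)
    have h2 := Helper265.Br.invFunOn_right (hsurj w' hw')
    rw [← h1, ← h2, h]
  · intro w hw
    exact Helper265.Br.invFunOn_right (hsurj w hw)
  · intro z hz hz2
    exact Helper265.Br.invFunOn_left hi ⟨hz, hz2⟩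

end Pool.Agent.R239.Newt
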