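import Mathlib

/-!
# The Schwarz-Pick lemma in the right half plane
-/

set_option autoImplicit false

namespace Pool.Agent.R239.Newt

open Filter Topology Metric Set

/-- the open right half plane -/
def HP : Set ℂ := {z : ℂ | 0 < z.re}

lemma mem_HP {z : ℂ} : z ∈ HP ↔ 0 < z.re := Iff.rfl

lemma isOpen_HP : IsOpen HP := isOpen_lt continuous_const Complex.continuous_re

lemma convex_HP : Convex ℝ HP := convex_halfSpace_re_gt 0

lemma HP_ne_zero {z : ℂ} (hz : z ∈ HP) : z ≠ 0 := by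
  rintro rfl
  simp [HP] at hz

lemma hp_id (a b : ℂ) : ‖a - b‖ ^ 2 + 4 * a.re * b.re = ‖a + starRingEnd ℂ b‖ ^ 2 := by
  rw [← Complex.normSq_eq_norm_sq, ← Complex.normSq_eq_norm_sq, Complex.normSq_apply,
    Complex.normSq_apply]
  simp
  ring

lemma add_conj_ne {a b : ℂ} (ha : a ∈ HP) (hb : b ∈ HP) : a + starRingEnd ℂ b ≠ 0 := by
  intro h
  have : (a + starRingEnd ℂ b).re = 0 := by rw [h]; rfl
  rw [Complex.add_re, Complex.conj_re] at this
  rw [mem_HP] at ha hb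
  linarith

lemma norm_sub_lt {a b : ℂ} (ha : a ∈ HP) (hb : b ∈ HP) : ‖a - b‖ < ‖a + starRingEnd ℂ b‖ := by
  have h := hp_id a b
  rw [mem_HP] at ha hb
  have h1 : 0 < 4 * a.re * b.re := by positivity
  exact lt_of_pow_lt_pow_left₀ 2 (norm_nonneg _) (by linarith)

lemma cayley_inv_mem {w ζ : ℂ} (hw : w ∈ HP) (hζ : ‖ζ‖ < 1) :
    (w + starRingEnd ℂ w * ζ) / (1 - ζ) ∈ HP := by
  have h1 : (1 : ℂ) - ζ ≠ 0 := by
    intro h
    have : ζ = 1 := by rw [sub_eq_zero] at h; exact h.symm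
    rw [this, norm_one] at hζ
    exact lt_irrefl _ hζ
  have h2 : 0 < Complex.normSq (1 - ζ) := Complex.normSq_pos.2 h1
  rw [mem_HP, Complex.div_re, ← add_div]
  apply div_pos _ h2
  rw [mem_HP] at hw
  have h3 : Complex.normSq ζ < 1 := by
    rw [Complex.normSq_eq_norm_sq]
    have := norm_nonneg ζ
    nlinarith
  rw [Complex.normSq_apply] at h3
  simp
  nlinarith

/-- Schwarz-Pick in the right half plane -/
theorem sp {F : ℂ → ℂ} (hd : DifferentiableOn ℂ F HP) (hm : MapsTo F HP HP) {z w : ℂ}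
    (hz : z ∈ HP) (hw : w ∈ HP) :
    ‖F z - F w‖ * ‖z + starRingEnd ℂ w‖ ≤ ‖z - w‖ * ‖F z + starRingEnd ℂ (F w)‖ := by
  have hFz := hm hz
  have hFw := hm hw
  set Φ : ℂ → ℂ := fun ζ => (F ((w + starRingEnd ℂ w * ζ) / (1 - ζ)) - F w) /
    (F ((w + starRingEnd ℂ w * ζ) / (1 - ζ)) + starRingEnd ℂ (F w)) with hΦ
  have hφm : ∀ ζ ∈ ball (0 : ℂ) 1, (w + starRingEnd ℂ w * ζ) / (1 - ζ) ∈ HP := by
    intro ζ hζ
    exact cayley_inv_mem hw (by simpa using hζ)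
  have h1ne : ∀ ζ ∈ ball (0 : ℂ) 1, (1 : ℂ) - ζ ≠ 0 := by
    intro ζ hζ h
    have : ζ = 1 := by rw [sub_eq_zero] at h; exact h.symm
    rw [mem_ball_zero_iff, this, norm_one] at hζ
    exact lt_irrefl _ hζ
  have hcomp : DifferentiableOn ℂ (fun ζ => F ((w + starRingEnd ℂ w * ζ) / (1 - ζ))) (ball 0 1) := by
    refine hd.comp (t := HP) ?_ hφm
    apply DifferentiableOn.div
    · fun_prop
    · fun_prop
    · exact h1ne
  have hΦd : DifferentiableOn ℂ Φ (ball 0 1) := by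
    apply DifferentiableOn.div
    · exact hcomp.sub (differentiableOn_const _)
    · exact hcomp.add (differentiableOn_const _)
    · intro ζ hζ
      exact add_conj_ne (hm (hφm ζ hζ)) hFw
  have hΦm : MapsTo Φ (ball 0 1) (closedBall 0 1) := by
    intro ζ hζ
    rw [mem_closedBall_zero_iff, hΦ]
    simp only
    rw [norm_div, div_le_one (norm_pos_iff.2 (add_conj_ne (hm (hφm ζ hζ)) hFw))]
    exact (norm_sub_lt (hm (hφm ζ hζ)) hFw).le
  have hΦ0 : Φ 0 = 0 := by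
    rw [hΦ]
    simp
  have hne := add_conj_ne hz hw
  set ζ : ℂ := (z - w) / (z + starRingEnd ℂ w) with hζ
  have hζ1 : ‖ζ‖ < 1 := by
    rw [hζ, norm_div, div_lt_one (norm_pos_iff.2 hne)]
    exact norm_sub_lt hz hw
  have key := Complex.norm_le_norm_of_mapsTo_ball hΦd hΦm hΦ0 hζ1
  have hback : (w + starRingEnd ℂ w * ζ) / (1 - ζ) = z := by
    have h1 : (1 : ℂ) - ζ ≠ 0 := h1ne ζ (by simpa using hζ1)
    rw [div_eq_iff h1, hζ]
    field_simp
    ring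
  rw [hΦ] at key
  simp only at key
  rw [hback, hζ, norm_div, norm_div] at key
  have h5 : 0 < ‖F z + starRingEnd ℂ (F w)‖ := norm_pos_iff.2 (add_conj_ne hFz hFw)
  have h6 : 0 < ‖z + starRingEnd ℂ w‖ := norm_pos_iff.2 hne
  rw [div_le_div_iff₀ h5 h6] at key
  exact key

/-- a multiplicative consequence: pseudo-hyperbolic distances in terms of real parts -/
theorem sp_re {F : ℂ → ℂ} (hd : DifferentiableOn ℂ F HP) (hm : MapsTo F HP HP) {z w : ℂ}
    (hz : z ∈ HP) (hw : w ∈ HP) :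
    z.re * w.re * ‖F z + starRingEnd ℂ (F w)‖ ^ 2 ≤
      (F z).re * (F w).re * ‖z + starRingEnd ℂ w‖ ^ 2 := by
  have h := sp hd hm hz hw
  have h1 := hp_id z w
  have h2 := hp_id (F z) (F w)
  have h3 : (‖F z - F w‖ * ‖z + starRingEnd ℂ w‖) ^ 2 ≤
      (‖z - w‖ * ‖F z + starRingEnd ℂ (F w)‖) ^ 2 := by
    gcongr
  rw [mul_pow, mul_pow] at h3
  set A := ‖F z + starRingEnd ℂ (F w)‖ ^ 2
  set B := ‖z + starRingEnd ℂ w‖ ^ 2
  have h4 : ‖F z - F w‖ ^ 2 = A - 4 * (F z).re * (F w).re := by linarith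
  have h5 : ‖z - w‖ ^ 2 = B - 4 * z.re * w.re := by linarith
  rw [h4, h5] at h3
  nlinarith

/-- comparison of moduli -/
theorem sp_norm {F : ℂ → ℂ} (hd : DifferentiableOn ℂ F HP) (hm : MapsTo F HP HP) {z w : ℂ}
    (hz : z ∈ HP) (hw : w ∈ HP) {u : ℝ} (hu : ‖z - w‖ ≤ u * ‖z + starRingEnd ℂ w‖) :
    ‖F z - F w‖ ≤ u * (‖F z‖ + ‖F w‖) := by
  have h := sp hd hm hz hw
  have h6 : 0 < ‖z + starRingEnd ℂ w‖ := norm_pos_iff.2 (add_conj_ne hz hw)
  have h7 : ‖F z + starRingEnd ℂ (F w)‖ ≤ ‖F z‖ + ‖F w‖ := by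
    refine (norm_add_le _ _).trans ?_
    rw [RCLike.norm_conj]
  have hu0 : 0 ≤ u := by
    by_contra hcon
    push Not at hcon
    nlinarith [norm_nonneg (z - w)]
  have h8 : ‖F z - F w‖ * ‖z + starRingEnd ℂ w‖ ≤
      (u * (‖F z‖ + ‖F w‖)) * ‖z + starRingEnd ℂ w‖ := by
    calc ‖F z - F w‖ * ‖z + starRingEnd ℂ w‖ ≤ ‖z - w‖ * ‖F z + starRingEnd ℂ (F w)‖ := h
      _ ≤ (u * ‖z + starRingEnd ℂ w‖) * (‖F z‖ + ‖F w‖) := by gcongr
      _ = _ := by ring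
  exact le_of_mul_le_mul_right h8 h6

end Pool.Agent.R239.Newt
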