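import Mathlib

/-!
# Supporting directions and equidistributed points
-/

set_option autoImplicit false

namespace Pool.Agent.R239.Newt

open Filter Topology Metric Set

/-- a real linear functional as a real inner product -/
lemma functional_eq (f : ℂ →L[ℝ] ℝ) (z : ℂ) :
    f z = (starRingEnd ℂ ((f 1 : ℂ) + (f Complex.I : ℂ) * Complex.I) * z).re := by
  have h1 : z = z.re • (1 : ℂ) + z.im • Complex.I := by
    apply Complex.ext <;> simp
  have h2 : f z = z.re * f 1 + z.im * f Complex.I := by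
    conv_lhs => rw [h1]
    rw [map_add, map_smul, map_smul, smul_eq_mul, smul_eq_mul]
  rw [h2]
  simp
  ring

lemma exists_dir {K : Set ℂ} (hK : Convex ℝ K) (hKc : IsClosed K) (hne : K.Nonempty) {x : ℂ}
    (hx : x ∉ K) : ∃ u : ℂ, ‖u‖ = 1 ∧ ∀ a ∈ K, (starRingEnd ℂ u * (a - x)).re ≤ 0 := by
  obtain ⟨f, t, h1, h2⟩ := geometric_hahn_banach_closed_point hK hKc hx
  set v : ℂ := (f 1 : ℂ) + (f Complex.I : ℂ) * Complex.I with hv
  have hf : ∀ z, f z = (starRingEnd ℂ v * z).re := functional_eq f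
  have hv0 : v ≠ 0 := by
    intro h
    obtain ⟨a, ha⟩ := hne
    have h3 := h1 a ha
    rw [hf, h] at h2 h3
    simp at h2 h3
    linarith
  have hvn : 0 < ‖v‖ := norm_pos_iff.2 hv0
  refine ⟨v / ‖v‖, ?_, fun a ha => ?_⟩
  · rw [norm_div, Complex.norm_real, norm_norm, div_self hvn.ne']
  · have h3 : starRingEnd ℂ (v / ‖v‖) * (a - x) = (starRingEnd ℂ v * (a - x)) / (‖v‖ : ℝ) := by
      rw [map_div₀, Complex.conj_ofReal]
      ring
    rw [h3, Complex.div_ofReal_re]
    apply div_nonpos_of_nonpos_of_nonneg _ hvn.le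
    rw [← hf, map_sub]
    have := h1 a ha
    linarith

/-- a boundary point of a compact convex set has a supporting direction -/
lemma exists_supp {K : Set ℂ} (hK : Convex ℝ K) (hKc : IsClosed K) (hne : K.Nonempty) {x : ℂ}
    (hx : x ∈ frontier K) : ∃ u : ℂ, ‖u‖ = 1 ∧ ∀ a ∈ K, (starRingEnd ℂ u * (a - x)).re ≤ 0 := by
  set C : Set (sphere (0 : ℂ) 1 × ℂ) := {q | ∀ a ∈ K, (starRingEnd ℂ (q.1 : ℂ) * (a - q.2)).re ≤ 0}
    with hC
  have hCc : IsClosed C := by
    have : C = ⋂ a ∈ K, {q : sphere (0 : ℂ) 1 × ℂ | (starRingEnd ℂ (q.1 : ℂ) * (a - q.2)).re ≤ 0} := by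
      ext q
      simp [hC]
    rw [this]
    refine isClosed_biInter fun a _ => isClosed_le ?_ continuous_const
    apply Complex.continuous_re.comp
    apply Continuous.mul
    · exact Complex.continuous_conj.comp (continuous_subtype_val.comp continuous_fst)
    · exact continuous_const.sub continuous_snd
  have hX : IsClosed (Prod.snd '' C) := isClosedMap_snd_of_compactSpace C hCc
  have hsub : Kᶜ ⊆ Prod.snd '' C := by
    intro y hy
    obtain ⟨u, hu, h⟩ := exists_dir hK hKc hne hy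
    exact ⟨(⟨u, by simp [hu]⟩, y), h, rfl⟩
  have hmem : x ∈ Prod.snd '' C := by
    apply closure_minimal hsub hX
    rw [frontier_eq_closure_inter_closure] at hx
    exact hx.2
  obtain ⟨⟨u, y⟩, h, rfl⟩ := hmem
  refine ⟨u, ?_, h⟩
  simp

/-- equidistributed points on a circle -/
lemma exists_equi {r : ℝ} (hr : 0 < r) {y : ℂ} (hy : ‖y‖ = r) {N : ℕ} (hN : 0 < N) :
    ∃ j : ℕ, j < N ∧
      ‖(r : ℂ) * Complex.exp (2 * Real.pi * Complex.I * j / N) - y‖ ≤ r * (2 * Real.pi / N) := by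
  have hpi := Real.pi_pos
  have hN0 : (0 : ℝ) < N := by exact_mod_cast hN
  -- an argument in `[0, 2π)`
  obtain ⟨φ, hφ0, hφ1, hφ⟩ : ∃ φ : ℝ, 0 ≤ φ ∧ φ < 2 * Real.pi ∧
      (r : ℂ) * Complex.exp (φ * Complex.I) = y := by
    rcases le_or_gt 0 (Complex.arg y) with h | h
    · refine ⟨Complex.arg y, h, by linarith [Complex.arg_le_pi y], ?_⟩
      rw [← hy]
      exact Complex.norm_mul_exp_arg_mul_I y
    · refine ⟨Complex.arg y + 2 * Real.pi, by linarith [Complex.neg_pi_lt_arg y], by linarith, ?_⟩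
      rw [← hy]
      have : (((Complex.arg y + 2 * Real.pi : ℝ) : ℂ) * Complex.I) =
          Complex.arg y * Complex.I + 2 * Real.pi * Complex.I := by push_cast; ring
      rw [this, Complex.exp_add, Complex.exp_two_pi_mul_I, mul_one]
      exact Complex.norm_mul_exp_arg_mul_I y
  set t : ℝ := φ * N / (2 * Real.pi) with ht
  have ht0 : 0 ≤ t := by positivity
  refine ⟨⌊t⌋₊, ?_, ?_⟩
  · rw [Nat.floor_lt ht0, ht, div_lt_iff₀ (by positivity)]
    nlinarith
  · have h1 : (⌊t⌋₊ : ℝ) ≤ t := Nat.floor_le ht0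
    have h2 : t < ⌊t⌋₊ + 1 := Nat.lt_floor_add_one t
    set j : ℝ := (⌊t⌋₊ : ℝ) with hj
    have h3 : φ = t * (2 * Real.pi / N) := by rw [ht]; field_simp
    set δ : ℝ := 2 * Real.pi * j / N - φ with hδ
    have hδ1 : |δ| ≤ 2 * Real.pi / N := by
      have : δ = -((t - j) * (2 * Real.pi / N)) := by rw [hδ, h3]; ring
      rw [this, abs_neg, abs_mul, abs_of_nonneg (by linarith : 0 ≤ t - j),
        abs_of_pos (by positivity : 0 < 2 * Real.pi / N)]
      have : 0 < 2 * Real.pi / N := by positivity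
      nlinarith
    have h4 : Complex.exp (2 * Real.pi * Complex.I * (⌊t⌋₊ : ℂ) / N) =
        Complex.exp (φ * Complex.I) * Complex.exp (Complex.I * δ) := by
      rw [← Complex.exp_add]
      congr 1
      rw [hδ, hj]
      push_cast
      ring
    rw [h4, ← hφ]
    have h5 : (r : ℂ) * (Complex.exp (φ * Complex.I) * Complex.exp (Complex.I * δ)) -
        r * Complex.exp (φ * Complex.I) =
        (r : ℂ) * (Complex.exp (φ * Complex.I) * (Complex.exp (Complex.I * δ) - 1)) := by ring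
    rw [h5, norm_mul, norm_mul, Complex.norm_exp_ofReal_mul_I, one_mul, Complex.norm_real,
      Real.norm_eq_abs, abs_of_pos hr]
    have h6 := Real.norm_exp_I_mul_ofReal_sub_one_le (x := δ)
    rw [Real.norm_eq_abs] at h6
    gcongr
    exact h6.trans hδ1

end Pool.Agent.R239.Newt
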